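import Pool.Agent.Helper32.CL.St1

/-!
# Project CL (MP_b2fa09_gt): module MS (Michael-Simon inequality for closed surfaces)
-/

set_option autoImplicit false

namespace Pool.Agent.Helper26.CL

open Helper32.CL Helper35.PI Helper35.PI2
open scoped ContDiff Manifold Topology ENNReal BigOperators
open MeasureTheory Set Filter

theorem slice_cont {M : Type} [TopologicalSpace M] {E : Type} [TopologicalSpace E]
    {g : M → ℝ → E} (hg : ContinuousOn (fun z : M × ℝ => g z.1 z.2) (univ ×ˢ Iio 0)) {t : ℝ}
    (ht : t < 0) : Continuous (fun q => g q t) := by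
  have h := hg.comp_continuous (f := fun q : M => (q, t)) (by fun_prop)
    (fun q => ⟨mem_univ _, ht⟩)
  exact h

theorem hMS (hMU : StMU) (hMR : StMR) (hMH : StMH) (hI4 : StI4) : StMS := by
  intro N M _ _ _ _ _ _ _ _ F c χ hS t ht h k hh hk h0 hgk
  obtain ⟨s, -, hs⟩ := hMU 2 N M F c χ hS
  obtain ⟨hfin, -, hint⟩ := hs t ht
  obtain ⟨hF1, hF2, -, -⟩ := hI4 2 N M F hS.mcf
  set μ : Measure M := muM 2 F c χ t with hμ
  haveI : IsFiniteMeasure μ := ⟨hfin⟩
  have hFc : Continuous (fun q : M => F q t) := slice_cont (g := fun q r => F q r) hF1 ht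
  have hHc : Continuous (fun q : M => HH (n := 2) F q t) :=
    slice_cont (g := fun q r => HH (n := 2) F q r) hF2 ht
  have hhc : Continuous h := hh.continuous
  have hk0 : ∀ q, 0 ≤ k q := fun q => (norm_nonneg _).trans (hgk q)
  set a : M → ℝ := fun p => k p + ‖HH (n := 2) F p t‖ * h p with ha
  have hac : Continuous a := hk.add (hHc.norm.mul hhc)
  have ha0 : ∀ p, 0 ≤ a p := fun p => add_nonneg (hk0 p) (mul_nonneg (norm_nonneg _) (h0 p))
  have hI0 : 0 ≤ ∫ p, a p ∂μ := integral_nonneg ha0
  -- the kernel is measurable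
  have hFm : Measurable (fun q : M => F q t) := hFc.measurable
  have hkm : Measurable (fun z : M × M => ENNReal.ofReal (h z.1 * (a z.2 / ‖F z.2 t - F z.1 t‖))) := by
    apply ENNReal.measurable_ofReal.comp
    apply Measurable.mul (hhc.measurable.comp measurable_fst)
    apply Measurable.div (hac.measurable.comp measurable_snd)
    exact ((hFm.comp measurable_snd).sub (hFm.comp measurable_fst)).norm
  have hkm1 : ∀ q : M, Measurable (fun p : M => ENNReal.ofReal (a p / ‖F p t - F q t‖)) := by
    intro q
    apply ENNReal.measurable_ofReal.comp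
    exact hac.measurable.div (hFm.sub_const _).norm
  have hkm2 : ∀ p : M, Measurable (fun q : M => ENNReal.ofReal (h q / ‖F q t - F p t‖)) := by
    intro p
    apply ENNReal.measurable_ofReal.comp
    exact hhc.measurable.div (hFm.sub_const _).norm
  have hkey : ENNReal.ofReal (∫ q, h q ^ 2 / 2 ∂μ) ≤ ENNReal.ofReal ((∫ p, a p ∂μ) ^ 2) := by
    calc ENNReal.ofReal (∫ q, h q ^ 2 / 2 ∂μ)
        = ∫⁻ q, ENNReal.ofReal (h q ^ 2 / 2) ∂μ := by
          apply ofReal_integral_eq_lintegral_ofReal
          · exact (hint _ ((hhc.pow 2).div_const 2)).1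
          · exact Eventually.of_forall (fun q => by positivity)
      _ ≤ ∫⁻ q, ∫⁻ p, ENNReal.ofReal (h q * (a p / ‖F p t - F q t‖)) ∂μ ∂μ := by
          apply lintegral_mono
          intro q
          have h1 := hMR N M F c χ hS t ht h k hh hk h0 hgk q
          calc ENNReal.ofReal (h q ^ 2 / 2) = ENNReal.ofReal (h q) * ENNReal.ofReal (h q / 2) := by
                rw [← ENNReal.ofReal_mul (h0 q)]
                congr 1
                ring
            _ ≤ ENNReal.ofReal (h q) * ∫⁻ p, ENNReal.ofReal (a p / ‖F p t - F q t‖) ∂μ := by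
                gcongr
            _ = ∫⁻ p, ENNReal.ofReal (h q * (a p / ‖F p t - F q t‖)) ∂μ := by
                rw [← lintegral_const_mul _ (hkm1 q)]
                apply lintegral_congr
                intro p
                rw [ENNReal.ofReal_mul (h0 q)]
      _ = ∫⁻ p, ∫⁻ q, ENNReal.ofReal (h q * (a p / ‖F p t - F q t‖)) ∂μ ∂μ :=
          lintegral_lintegral_swap hkm.aemeasurable
      _ ≤ ∫⁻ p, ENNReal.ofReal (a p) * ENNReal.ofReal (∫ p, a p ∂μ) ∂μ := by
          apply lintegral_mono
          intro p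
          have h1 := hMH N M F c χ hS t ht h k hh hk h0 hgk (F p t)
          calc ∫⁻ q, ENNReal.ofReal (h q * (a p / ‖F p t - F q t‖)) ∂μ
              = ∫⁻ q, ENNReal.ofReal (a p) * ENNReal.ofReal (h q / ‖F q t - F p t‖) ∂μ := by
                apply lintegral_congr
                intro q
                rw [← ENNReal.ofReal_mul (ha0 p), norm_sub_rev]
                congr 1
                ring
            _ = ENNReal.ofReal (a p) * ∫⁻ q, ENNReal.ofReal (h q / ‖F q t - F p t‖) ∂μ :=
                lintegral_const_mul _ (hkm2 p)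
            _ ≤ ENNReal.ofReal (a p) * ENNReal.ofReal (∫ p, a p ∂μ) := by gcongr
      _ = ENNReal.ofReal ((∫ p, a p ∂μ) ^ 2) := by
          have hma : Measurable (fun p : M => ENNReal.ofReal (a p)) :=
            ENNReal.measurable_ofReal.comp hac.measurable
          rw [lintegral_mul_const _ hma,
            ← ofReal_integral_eq_lintegral_ofReal (hint a hac).1 (Eventually.of_forall ha0),
            ← ENNReal.ofReal_mul hI0]
          congr 1
          ring
  have h2 : ∫ q, h q ^ 2 / 2 ∂μ ≤ (∫ p, a p ∂μ) ^ 2 :=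
    (ENNReal.ofReal_le_ofReal_iff (by positivity)).mp hkey
  rw [integral_div] at h2
  linarith

end Pool.Agent.Helper26.CL
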