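import Pool.Agent.Helper32.CL.St3

/-!
# Project CL (MP_b2fa09_gt): module OB (real analysis: backward limit zero and monotone below m)
-/

set_option autoImplicit false

namespace Pool.Agent.Helper26.CL

open Helper32.CL Helper35.PI Helper35.PI2
open Set

theorem hOB : StOB := by
  intro m a a' hm h hlim t ht
  have hkey : ∀ ε : ℝ, 0 < ε → ε ≤ m → a t ≤ ε := by
    intro ε hε hεm
    obtain ⟨s, hs, has⟩ := hlim (ε / 2) (-t) (by linarith)
    have hst : s ≤ t := by linarith
    set δ : ℝ := ε / 2 / (t - s + 1) with hδ
    have hd : 0 < t - s + 1 := by linarith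
    have hδ0 : 0 < δ := by positivity
    have hδ1 : δ * (t - s) ≤ ε / 2 := by
      have h1 : δ * (t - s + 1) = ε / 2 := by
        rw [hδ]; field_simp
      nlinarith
    have hB : ∀ x, HasDerivAt (fun x : ℝ => ε / 2 + δ * (x - s)) δ x := by
      intro x
      have h1 : HasDerivAt (fun x : ℝ => x - s) 1 x := (hasDerivAt_id x).sub_const s
      have h2 := (h1.const_mul δ).const_add (ε / 2)
      simpa using h2
    have h2 := image_le_of_deriv_right_lt_deriv_boundary' (f := a) (f' := a') (a := s) (b := t)
      (B := fun x : ℝ => ε / 2 + δ * (x - s)) (B' := fun _ => δ)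
      (fun x hx => (h x (lt_of_le_of_lt hx.2 ht)).2.1.continuousAt.continuousWithinAt)
      (fun x hx => (h x (lt_trans hx.2 ht)).2.1.hasDerivWithinAt)
      (by simpa using has)
      (fun x _ => (hB x).continuousAt.continuousWithinAt)
      (fun x _ => (hB x).hasDerivWithinAt)
      (by
        intro x hx hxe
        have h3 : a x ≤ m := by
          rw [hxe]
          have h4 : δ * (x - s) ≤ δ * (t - s) := by
            apply mul_le_mul_of_nonneg_left _ hδ0.le
            linarith [hx.2]
          show ε / 2 + δ * (x - s) ≤ m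
          linarith
        exact lt_of_le_of_lt ((h x (lt_trans hx.2 ht)).2.2 h3) hδ0)
    have h5 : a t ≤ ε / 2 + δ * (t - s) := h2 ⟨hst, le_refl t⟩
    linarith
  apply le_antisymm _ (h t ht).1
  apply le_of_forall_pos_le_add
  intro ε hε
  rcases le_total ε m with h1 | h1
  · simpa using hkey ε hε h1
  · have := hkey m hm le_rfl
    linarith

end Pool.Agent.Helper26.CL
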