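import Pool.Agent.Helper26.CL.St

/-! # Project CM, module C: the two-point function of the box on the sines, final form -/

set_option autoImplicit false

open scoped BigOperators ENNReal Topology
open Pool.LE Pool.NL Filter

namespace Pool.CN

/-- the body of `StC2l` for one dimension -/
def C2lP (d : ℕ) : Prop := 0 < FT (gS d (pH d)) 0 ∧
  Summable (gS d (pH d)) ∧ SymF (gS d (pH d)) ∧ ∃ c : ℝ, 0 < c ∧
  ∀ k : Fin d → ℕ, (∀ i, 1 ≤ k i) →
    Tendsto (fun n : ℕ => (n : ℝ) ^ 2 * (1 - 2 * d * pH d * Dh (kap n k) *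
      FT (gS d (pH d)) (kap n k))) atTop (𝓝 (c * (∑ i, (k i : ℝ) ^ 2) * FT (gS d (pH d)) 0)) ∧
    Tendsto (fun n : ℕ => FT (gS d (pH d)) (kap n k)) atTop (𝓝 (FT (gS d (pH d)) 0))

/-- the body of `StC` for one dimension -/
def CP (d : ℕ) : Prop := ∃ c : ℝ, 0 < c ∧ ∀ k : Fin d → ℕ, (∀ i, 1 ≤ k i) →
  Tendsto (fun n : ℕ => (1 / (n : ℝ) ^ d) * ∑ v ∈ Bn d n,
    |Tn d n (sk n k) v - sk n k v / (c * ∑ i, (k i : ℝ) ^ 2)|) atTop (𝓝 0)

theorem hCp (hC2s : StC2s) (hHw : StHw) (hC1b : StC1b) (hBn : StBn) (d : ℕ) (C₁ B c₀ : ℝ)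
    (env : Env d C₁ B c₀) (hZ : G3Z d (pH d))
    (hE : ∀ E : Finset (Sym2 (Zd d)), (E : Set (Sym2 (Zd d))) ⊆ latE d → G3 E (pH d))
    (h2 : C2lP d) : CP d := by
  classical
  have hd1 : 1 ≤ d := le_trans (by norm_num) env.hd
  obtain ⟨hg0, hgs, hgy, c, hc, hl⟩ := h2
  refine ⟨c, hc, fun k hk => ?_⟩
  obtain ⟨hL, hgt⟩ := hl k hk
  set p := pH d with hp
  have hp0 : 0 ≤ p := env.p0.le
  have hp1 : p ≤ 1 := le_trans env.p1 (by norm_num)
  set g0 : ℝ := FT (gS d p) 0 with hg0'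
  set S : ℝ := ∑ i, (k i : ℝ) ^ 2 with hS
  have hSpos : 0 < S := by
    refine Finset.sum_pos (fun i _ => ?_) ⟨⟨0, hd1⟩, Finset.mem_univ _⟩
    have : (0 : ℝ) < k i := by exact_mod_cast hk i
    positivity
  let g : ℕ → ℝ := fun n => FT (gS d p) (kap n k)
  let L : ℕ → ℝ := fun n => (n : ℝ) ^ 2 * (1 - 2 * d * p * Dh (kap n k) * FT (gS d p) (kap n k))
  let W : ℕ → ℝ := fun n => (∑ b ∈ Bn d n, hh (Bn d n) (ES (Bn d n)) p b * wb n b) / (n : ℝ) ^ (d + 1)
  have hL' : Tendsto L atTop (𝓝 (c * S * g0)) := hL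
  have hg' : Tendsto g atTop (𝓝 g0) := hgt
  have hW : Tendsto W atTop (𝓝 0) := hHw d C₁ B c₀ env
  have hLpos : 0 < c * S * g0 := by positivity
  have hq : Tendsto (fun n => |g n / L n - 1 / (c * S)|) atTop (𝓝 0) := by
    have h3 : Tendsto (fun n => g n / L n - 1 / (c * S)) atTop (𝓝 (g0 / (c * S * g0) - 1 / (c * S))) :=
      (hg'.div hL' hLpos.ne').sub_const _
    have h4 : g0 / (c * S * g0) - 1 / (c * S) = 0 := by
      field_simp
      ring
    rw [h4] at h3
    have h5 := h3.abs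
    rwa [abs_zero] at h5
  set M : ℝ := (Real.pi * ∑ i, (k i : ℝ)) * (1 + 8 * d * p) with hM
  have hM0 : 0 ≤ M := by
    have := Real.pi_pos
    positivity
  have hlim : Tendsto (fun n => (1 / L n) * (M * |W n|) + |g n / L n - 1 / (c * S)|) atTop (𝓝 0) := by
    have h3 : Tendsto (fun n => 1 / L n) atTop (𝓝 (1 / (c * S * g0))) :=
      tendsto_const_nhds.div hL' hLpos.ne'
    have h4 : Tendsto (fun n => M * |W n|) atTop (𝓝 0) := by
      have := hW.abs.const_mul M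
      simpa using this
    have h5 := (h3.mul h4).add hq
    simpa using h5
  refine squeeze_zero' (Eventually.of_forall fun n => by positivity) ?_ hlim
  filter_upwards [hL'.eventually (lt_mem_nhds hLpos), eventually_ge_atTop 1] with n hLn hn
  have hn0 : (0 : ℝ) < n := by exact_mod_cast hn
  obtain ⟨-, hcard, hlat, -, -⟩ := hBn d n
  obtain ⟨-, hsk1, -, -⟩ := hC1b d n k
  have hLn0 : 0 < L n := hLn
  have hnd : (0 : ℝ) < (n : ℝ) ^ d := by positivity
  have hmain := hC2s d n p hd1 hp0 hp1 hZ (hE _ hlat) hgs hgy k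
  -- pointwise
  have hpt : ∀ v ∈ Bn d n, |Tn d n (sk n k) v - sk n k v / (c * S)| ≤
      (1 / L n) * |(1 - 2 * d * p * Dh (kap n k) * FT (gS d p) (kap n k)) *
        (∑ y ∈ Bn d n, cp (ES (Bn d n)) p v y * sk n k y) - FT (gS d p) (kap n k) * sk n k v| +
      |g n / L n - 1 / (c * S)| := by
    intro v _
    have e1 : Tn d n (sk n k) v - sk n k v / (c * S) =
        (1 / L n) * ((1 - 2 * d * p * Dh (kap n k) * FT (gS d p) (kap n k)) *
          (∑ y ∈ Bn d n, cp (ES (Bn d n)) p v y * sk n k y) - FT (gS d p) (kap n k) * sk n k v) +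
        (g n / L n - 1 / (c * S)) * sk n k v := by
      have e2 : (1 / L n) * (1 - 2 * d * p * Dh (kap n k) * FT (gS d p) (kap n k)) =
          1 / (n : ℝ) ^ 2 := by
        have e3 : L n = (n : ℝ) ^ 2 * (1 - 2 * d * p * Dh (kap n k) * FT (gS d p) (kap n k)) := rfl
        have e4 : (1 - 2 * d * p * Dh (kap n k) * FT (gS d p) (kap n k)) ≠ 0 := by
          intro h
          rw [e3, h, mul_zero] at hLn0
          exact lt_irrefl _ hLn0
        rw [e3]
        field_simp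
      rw [mul_sub, ← mul_assoc, e2]
      unfold Tn
      show _ = _ - 1 / L n * (g n * sk n k v) + _
      ring
    rw [e1]
    refine (abs_add_le _ _).trans (add_le_add ?_ ?_)
    · rw [abs_mul, abs_of_pos (by positivity)]
    · rw [abs_mul]
      exact mul_le_of_le_one_right (abs_nonneg _) (hsk1 v)
  have hsumk : (∑ i, kap n k i) ≤ (Real.pi * ∑ i, (k i : ℝ)) / n := by
    rw [Finset.mul_sum, Finset.sum_div]
    refine Finset.sum_le_sum fun i _ => ?_
    unfold kap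
    have := Real.pi_pos
    gcongr
    linarith
  have hWn : (∑ b ∈ Bn d n, hh (Bn d n) (ES (Bn d n)) p b * wb n b) ≤ |W n| * (n : ℝ) ^ (d + 1) := by
    have h3 : W n ≤ |W n| := le_abs_self _
    have h4 : (∑ b ∈ Bn d n, hh (Bn d n) (ES (Bn d n)) p b * wb n b) = W n * (n : ℝ) ^ (d + 1) := by
      show _ = (_ / _) * _
      rw [div_mul_cancel₀ _ (by positivity)]
    rw [h4]
    gcongr
  have hS1 : (∑ i, kap n k i) * (1 + 8 * d * p) *
        ∑ b ∈ Bn d n, hh (Bn d n) (ES (Bn d n)) p b * wb n b ≤ M * |W n| * (n : ℝ) ^ d := by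
    calc (∑ i, kap n k i) * (1 + 8 * d * p) *
        ∑ b ∈ Bn d n, hh (Bn d n) (ES (Bn d n)) p b * wb n b
        ≤ ((Real.pi * ∑ i, (k i : ℝ)) / n) * (1 + 8 * d * p) * (|W n| * (n : ℝ) ^ (d + 1)) := by
          have := Real.pi_pos
          have h3 : 0 ≤ ((Real.pi * ∑ i, (k i : ℝ)) / n) * (1 + 8 * d * p) := by positivity
          refine le_trans (mul_le_mul_of_nonneg_left hWn ?_)
            (mul_le_mul_of_nonneg_right (mul_le_mul_of_nonneg_right hsumk (by positivity)) (by positivity))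
          refine mul_nonneg (Finset.sum_nonneg fun i _ => ?_) (by positivity)
          unfold kap
          positivity
      _ = M * |W n| * (n : ℝ) ^ d := by
          rw [hM, pow_succ]
          field_simp
  calc (1 / (n : ℝ) ^ d) * ∑ v ∈ Bn d n, |Tn d n (sk n k) v - sk n k v / (c * S)|
      ≤ (1 / (n : ℝ) ^ d) * ∑ v ∈ Bn d n, ((1 / L n) *
        |(1 - 2 * d * p * Dh (kap n k) * FT (gS d p) (kap n k)) *
        (∑ y ∈ Bn d n, cp (ES (Bn d n)) p v y * sk n k y) - FT (gS d p) (kap n k) * sk n k v| +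
        |g n / L n - 1 / (c * S)|) := by
        gcongr with v hv
        exact hpt v hv
    _ = (1 / (n : ℝ) ^ d) * ((1 / L n) * ∑ v ∈ Bn d n,
        |(1 - 2 * d * p * Dh (kap n k) * FT (gS d p) (kap n k)) *
        (∑ y ∈ Bn d n, cp (ES (Bn d n)) p v y * sk n k y) - FT (gS d p) (kap n k) * sk n k v|) +
        |g n / L n - 1 / (c * S)| := by
        rw [Finset.sum_add_distrib, Finset.sum_const, hcard, nsmul_eq_mul, ← Finset.mul_sum]
        push_cast
        field_simp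
    _ ≤ (1 / (n : ℝ) ^ d) * ((1 / L n) * (M * |W n| * (n : ℝ) ^ d)) + |g n / L n - 1 / (c * S)| := by
        have h3 := hmain.trans hS1
        gcongr
    _ = (1 / L n) * (M * |W n|) + |g n / L n - 1 / (c * S)| := by
        field_simp

theorem hC (hC2s : StC2s) (hC2l : StC2l) (hHw : StHw) (hC1b : StC1b) (hEnv : StEnv) (hG3 : StG3)
    (hBn : StBn) : StC := by
  obtain ⟨d₀, h0⟩ := hEnv
  obtain ⟨d₁, h1⟩ := hG3
  obtain ⟨d₂, -, h2⟩ := hC2l
  refine ⟨max 1 (max d₀ (max d₁ d₂)), fun d hd => ?_⟩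
  have hdd : max d₀ (max d₁ d₂) ≤ d := le_trans (le_max_right _ _) hd
  have hd0' : d₀ ≤ d := le_trans (le_max_left _ _) hdd
  have hd1' : d₁ ≤ d := le_trans (le_max_left _ _) (le_trans (le_max_right _ _) hdd)
  have hd2' : d₂ ≤ d := le_trans (le_max_right _ _) (le_trans (le_max_right _ _) hdd)
  obtain ⟨-, C₁, B, c₀, env⟩ := h0 d hd0'
  obtain ⟨hZ, hE⟩ := h1 d hd1'
  exact hCp hC2s hHw hC1b hBn d C₁ B c₀ env hZ hE (h2 d hd2')

end Pool.CN
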