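import Pool.Agent.Helper26.CL.St

/-! # Project CM, module C2e: `g` is almost diagonal on the sines -/

set_option autoImplicit false

open scoped BigOperators ENNReal Topology
open Pool.LE Pool.NL

namespace Pool.CN

theorem hC2e (hN1 : StN1) (hN2 : StN2) (hC1 : StC1) (hC1b : StC1b) (hC1w : StC1w) : StC2e := by
  classical
  intro d n p hd hp hp1 hZ hE hgs hgy k b hb
  obtain ⟨h1, -⟩ := hN2 d n p hp hp1 hE
  obtain ⟨-, -, R, i, hR, hball, hor, hwb⟩ := hC1w d n hd b hb
  obtain ⟨-, -, -, hsin⟩ := hC1b d n k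
  obtain ⟨hs1, he1⟩ := hC1 d n k (gS d p) hgs hgy b
  obtain ⟨hs2, he2⟩ := hN1 d n R p hd hp hp1 hZ hE hR b hball i
  have hkap : ∀ j, 0 ≤ kap n k j := by
    intro j
    unfold kap
    have := Real.pi_pos
    positivity
  have hR0 : (0 : ℝ) < R := by exact_mod_cast hR
  -- pointwise bound of the sines
  have hsk : ∀ x : Zd d, |sk n k x| ≤ kap n k i * ((R : ℝ) + |(x i : ℝ) - b i|) := by
    intro x
    rcases hor with h | h
    · have := (hsin i b x).1
      rwa [h] at this
    · have := (hsin i b x).2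
      rwa [h] at this
  have hterm : ∀ x : Zd d, |(gT (ES (Bn d n)) p b x - gS d p (x - b)) * sk n k x| ≤
      kap n k i * (((R : ℝ) + |(x i : ℝ) - b i|) * |gT (ES (Bn d n)) p b x - gS d p (x - b)|) := by
    intro x
    rw [abs_mul]
    calc |gT (ES (Bn d n)) p b x - gS d p (x - b)| * |sk n k x|
        ≤ |gT (ES (Bn d n)) p b x - gS d p (x - b)| * (kap n k i * ((R : ℝ) + |(x i : ℝ) - b i|)) := by
          exact mul_le_mul_of_nonneg_left (hsk x) (abs_nonneg _)
      _ = _ := by ring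
  have hsd : Summable (fun x : Zd d => |(gT (ES (Bn d n)) p b x - gS d p (x - b)) * sk n k x|) :=
    Summable.of_nonneg_of_le (fun x => abs_nonneg _) hterm (hs2.mul_left _)
  have hsg : Summable (fun x : Zd d => gT (ES (Bn d n)) p b x * sk n k x) := by
    have := hsd.of_abs.add hs1
    refine this.congr fun x => ?_
    ring
  have e1 : ∑ x ∈ Bn d n, gT (ES (Bn d n)) p b x * sk n k x =
      ∑' x : Zd d, gT (ES (Bn d n)) p b x * sk n k x := by
    rw [tsum_eq_sum (s := Bn d n)]
    intro x hx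
    rw [h1 b hb x hx, zero_mul]
  have e2 : ∑ x ∈ Bn d n, gT (ES (Bn d n)) p b x * sk n k x - FT (gS d p) (kap n k) * sk n k b =
      ∑' x : Zd d, (gT (ES (Bn d n)) p b x - gS d p (x - b)) * sk n k x := by
    rw [e1, ← he1, ← hsg.tsum_sub hs1]
    refine tsum_congr fun x => ?_
    ring
  rw [e2]
  calc |∑' x : Zd d, (gT (ES (Bn d n)) p b x - gS d p (x - b)) * sk n k x|
      ≤ ∑' x : Zd d, |(gT (ES (Bn d n)) p b x - gS d p (x - b)) * sk n k x| :=
        norm_tsum_le_tsum_norm (f := fun x : Zd d =>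
          (gT (ES (Bn d n)) p b x - gS d p (x - b)) * sk n k x) hsd
    _ ≤ ∑' x : Zd d, kap n k i * (((R : ℝ) + |(x i : ℝ) - b i|) *
          |gT (ES (Bn d n)) p b x - gS d p (x - b)|) := hsd.tsum_le_tsum hterm (hs2.mul_left _)
    _ = kap n k i * ∑' x : Zd d, (((R : ℝ) + |(x i : ℝ) - b i|) *
          |gT (ES (Bn d n)) p b x - gS d p (x - b)|) := tsum_mul_left
    _ ≤ kap n k i * (1 / (R : ℝ) ^ 2) := mul_le_mul_of_nonneg_left he2 (hkap i)
    _ ≤ kap n k i * wb n b := mul_le_mul_of_nonneg_left hwb (hkap i)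
    _ ≤ (∑ j, kap n k j) * wb n b := by
        refine mul_le_mul_of_nonneg_right ?_ (le_trans (by positivity) hwb)
        exact Finset.single_le_sum (fun j _ => hkap j) (Finset.mem_univ i)

end Pool.CN
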