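import Pool.Agent.Helper26.CL.M_CCT
import Pool.Agent.Helper65.CL.StD

/-! # Project CM: the class, in the notation of `Pool.CL` -/

set_option autoImplicit false

open scoped BigOperators ENNReal Topology
open Pool.LE Pool.NL Filter

namespace Pool.CL

/-- sines are eigenfunctions in the limit -/
def StSin : Prop := ∀ (d : ℕ) (C₁ B c₀ CL : ℝ), EnvC d C₁ B c₀ CL → ∃ c : ℝ, 0 < c ∧
  ∀ k : Fin d → ℕ, (∀ i, 1 ≤ k i) → Tendsto (fun n : ℕ => av d n (fun v =>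
    |T0 d n (phk d n k) v - phk d n k v / (c * ∑ i, (k i : ℝ) ^ 2)|)) atTop (𝓝 0)

namespace OutM

theorem T0_eq (d n : ℕ) (f : Zd d → ℝ) (v : Zd d) : T0 d n f v = Pool.CN.Tn d n f v := by
  unfold T0 Pool.CN.Tn ap G0
  rw [one_div, div_eq_inv_mul]

theorem phk_eq (d n : ℕ) (k : Fin d → ℕ) (x : Zd d) : phk d n k x = Pool.CN.sk n k x := by
  unfold phk Pool.CN.sk Pool.CN.kap
  refine Finset.prod_congr rfl fun i _ => ?_
  congr 1
  ring

theorem av_eq (d n : ℕ) (f : Zd d → ℝ) : av d n f = (1 / (n : ℝ) ^ d) * ∑ x ∈ Bn d n, f x := by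
  unfold av
  rw [one_div, div_eq_inv_mul]

theorem toN {d : ℕ} {f : ℕ → Zd d → ℝ} (h : CC d f) : Pool.CN.CC d f := by
  obtain ⟨⟨M, hM⟩, h2⟩ := h
  refine ⟨⟨M, fun n x _ => hM n x⟩, fun ε hε => ?_⟩
  obtain ⟨g, hg, n₀, hn₀⟩ := h2 ε hε
  refine ⟨g, hg, max 1 n₀, fun n hn => ?_⟩
  have hn1 : 1 ≤ n := le_trans (le_max_left _ _) hn
  have hnd : (0 : ℝ) < (n : ℝ) ^ d := by
    have : (0 : ℝ) < n := by exact_mod_cast hn1
    positivity
  have h3 := hn₀ n (le_trans (le_max_right _ _) hn)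
  unfold av at h3
  exact (div_le_iff₀ hnd).1 h3

theorem ofN {d : ℕ} {f : ℕ → Zd d → ℝ} (h : Pool.CN.CC d f) (hb : ∃ M : ℝ, ∀ n x, |f n x| ≤ M) :
    CC d f := by
  obtain ⟨-, h2⟩ := h
  refine ⟨hb, fun ε hε => ?_⟩
  obtain ⟨g, hg, n₀, hn₀⟩ := h2 ε hε
  refine ⟨g, hg, max 1 n₀, fun n hn => ?_⟩
  have hn1 : 1 ≤ n := le_trans (le_max_left _ _) hn
  have hnd : (0 : ℝ) < (n : ℝ) ^ d := by
    have : (0 : ℝ) < n := by exact_mod_cast hn1
    positivity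
  have h3 := hn₀ n (le_trans (le_max_right _ _) hn)
  unfold av
  exact (div_le_iff₀ hnd).2 h3

end OutM

open OutM

theorem hCCof (hCCa : Pool.CN.StCCa) (hCCv : Pool.CN.StCCv) (hDens : Pool.CN.StDens)
    (hHub : StHub) (hBn : StBn) (hHh : StHh)
    (hCP : ∀ (d : ℕ) (C₁ B c₀ CL : ℝ), EnvC d C₁ B c₀ CL → Pool.CN.CP d) : StCC := by
  intro d C₁ B c₀ CL h
  have env := h.env
  have hd1 : 1 ≤ d := le_trans (by norm_num) env.hd
  obtain ⟨a1, a2, -, -, a5, -, -⟩ := hCCa d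
  refine ⟨fun c => ofN (a1 c) ⟨|c|, fun _ _ => le_rfl⟩, fun f g hf hg => ?_, fun f g hf hg => ?_,
    fun f hf => ?_, fun f hf => ?_⟩
  · obtain ⟨M, hM⟩ := hf.1
    obtain ⟨M', hM'⟩ := hg.1
    exact ofN (a2 f g (toN hf) (toN hg)) ⟨M + M', fun n x =>
      (abs_add_le _ _).trans (add_le_add (hM n x) (hM' n x))⟩
  · obtain ⟨M, hM⟩ := hf.1
    obtain ⟨M', hM'⟩ := hg.1
    exact ofN (a5 f g (toN hf) (toN hg)) ⟨M * M', fun n x => by
      rw [abs_mul]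
      exact mul_le_mul (hM n x) (hM' n x) (abs_nonneg _) ((abs_nonneg _).trans (hM n x))⟩
  · have h1 := Pool.CN.hCCTp hDens hHub hBn hHh d C₁ B c₀ env (hCP d C₁ B c₀ CL h) f (toN hf)
    have h2 : (fun (n : ℕ) (v : Zd d) => Pool.CN.Tn d n (f n) v) = fun n => T0 d n (f n) := by
      funext n v
      exact (T0_eq d n (f n) v).symm
    rw [h2] at h1
    refine ofN h1 ?_
    obtain ⟨⟨M, hM⟩, -⟩ := h1
    refine ⟨|M|, fun n x => ?_⟩
    by_cases hx : x ∈ Bn d n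
    · exact (hM n x hx).trans (le_abs_self _)
    · have hp0 : 0 ≤ pH d := env.p0.le
      have hp1 : pH d ≤ 1 := le_trans env.p1 (by norm_num)
      have hh := hHh (Zd d) (Bn d n) (ES (Bn d n)) (2 * d) (pH d) (hBn d n).1 hp0 hp1
      have h0 : T0 d n (f n) x = 0 := by
        unfold T0 ap G0
        rw [Finset.sum_eq_zero, zero_div]
        intro y hy
        rw [(hh.2.1 x y).1, hh.2.2.2.1 y x hy hx, zero_mul]
      rw [h0, abs_zero]
      exact abs_nonneg _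
  · obtain ⟨l, hl⟩ := hCCv d f (toN hf)
    refine ⟨l, ?_⟩
    simp only [av_eq]
    exact hl

theorem hSinof (hCP : ∀ (d : ℕ) (C₁ B c₀ CL : ℝ), EnvC d C₁ B c₀ CL → Pool.CN.CP d) : StSin := by
  intro d C₁ B c₀ CL h
  obtain ⟨c, hc, hl⟩ := hCP d C₁ B c₀ CL h
  refine ⟨c, hc, fun k hk => ?_⟩
  have h1 := hl k hk
  simp only [av_eq, T0_eq, phk_eq]
  have h2 : ∀ n : ℕ, (phk d n k) = Pool.CN.sk n k := fun n => funext fun x => phk_eq d n k x
  simp only [h2]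
  exact h1

end Pool.CL
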