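import Pool.Agent.Helper85.CL.M_C2l
import Pool.Agent.Helper26.CL.OutB

/-! # Project CM: the step kernel at small frequencies, for one dimension -/

set_option autoImplicit false

open scoped BigOperators ENNReal Topology
open Pool.LE Pool.NL Filter

namespace Pool.CN

open C2lM in
theorem hC2lE (hFTb : StFTb) (hIso : StIso) (d : ℕ) (C₁ B c₀ CL : ℝ)
    (hE : Pool.CL.EnvC d C₁ B c₀ CL) : C2lP d := by
  have hd0 : 0 < d := lt_of_lt_of_le (by norm_num) hE.env.hd
  have hp : 0 < pH d := hE.env.p0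
  have hone := hE.crit
  have hdR : (0 : ℝ) < d := by exact_mod_cast hd0
  have hSh := hE.hsum
  have hdl := hE.gdl
  have hSg := hE.gsum
  have hsym := hE.gsym
  have hnQ' : nQ (hS d (pH d)) ≤ 1 / 200 := hE.hle
  set g := gS d (pH d) with hg
  set h := hS d (pH d) with hh'
  obtain ⟨hsg, hsqg, -, -, -, -, hcont, -⟩ := hFTb d g hSg 0
  obtain ⟨hsh, hsqh, -, -, -, -, -, -⟩ := hFTb d h hSh 0
  have hF0 : 0 < FT g 0 := by
    by_contra hcon
    push Not at hcon
    have : 2 * (d : ℝ) * pH d * FT g 0 ≤ 0 :=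
      mul_nonpos_of_nonneg_of_nonpos (by positivity) hcon
    linarith
  -- FT g 0 + Σ sq g > 0
  have hFT0 : ∀ f : Zd d → ℝ, FT f 0 = ∑' x, f x := by
    intro f
    unfold FT
    refine tsum_congr fun x => ?_
    have h0 : ∑ i, (0 : Fin d → ℝ) i * (x i : ℝ) = 0 := by simp
    rw [h0, Real.cos_zero, mul_one]
  have hgx : ∀ x, g x = h x + if x = 0 then 1 else 0 := fun x => by
    rw [hdl]
    rfl
  have hsum1 : ∑' x, g x = ∑' x, h x + 1 := by
    have hs0 : HasSum (fun x : Zd d => if x = 0 then (1 : ℝ) else 0) 1 := by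
      have := hasSum_ite_eq (0 : Zd d) (1 : ℝ)
      exact this
    rw [tsum_congr hgx, hsh.tsum_add hs0.summable, hs0.tsum_eq]
  have hsum2 : ∑' x, LE.sq x * g x = ∑' x, LE.sq x * h x := by
    refine tsum_congr fun x => ?_
    rw [hgx]
    by_cases hx : x = 0
    · have h0 : LE.sq x = 0 := by
        rw [hx]
        unfold LE.sq
        simp
      rw [h0]
      ring
    · simp [hx]
  have hsqn : ∀ x : Zd d, 0 ≤ LE.sq x := fun x => by
    unfold LE.sq
    exact Finset.sum_nonneg fun i _ => sq_nonneg _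
  have hpos : 0 < FT g 0 + ∑' x, LE.sq x * g x := by
    rw [hFT0, hsum1, hsum2]
    have h1 : |∑' x, h x + ∑' x, LE.sq x * h x| ≤ nQ h := by
      rw [← hsh.tsum_add hsqh]
      have hb : ∀ x : Zd d, |h x + LE.sq x * h x| ≤ Qw x * |h x| := by
        intro x
        have h2 : h x + LE.sq x * h x = (1 + LE.sq x) * h x := by ring
        have h3 := hsqn x
        rw [h2, abs_mul, abs_of_nonneg (by linarith)]
        refine mul_le_mul_of_nonneg_right ?_ (abs_nonneg _)
        unfold Qw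
        linarith
      have hsa : Summable (fun x : Zd d => |h x + LE.sq x * h x|) :=
        Summable.of_nonneg_of_le (fun x => abs_nonneg _) hb hSh
      have h3 : |∑' x : Zd d, (h x + LE.sq x * h x)| ≤ ∑' x : Zd d, |h x + LE.sq x * h x| :=
        norm_tsum_le_tsum_norm (f := fun x : Zd d => h x + LE.sq x * h x) hsa
      exact h3.trans (hsa.tsum_le_tsum hb hSh)
    have h2 := abs_le.1 h1
    linarith [h2.1]
  refine ⟨hF0, hsg, hsym, Real.pi ^ 2 * pH d * (FT g 0 + ∑' x, LE.sq x * g x) / FT g 0, ?_, ?_⟩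
  · have := Real.pi_pos
    positivity
  · intro k _
    have t2 : Tendsto (fun n : ℕ => FT g (kap n k)) atTop (𝓝 (FT g 0)) :=
      (hcont.tendsto 0).comp (tkap k)
    refine ⟨?_, t2⟩
    have t1 := tFT g hSg hsg k
    have hiso : ∑' x : Zd d, g x * ((∑ i, Real.pi * k i * (x i : ℝ)) ^ 2 / 2) =
        Real.pi ^ 2 * (∑ i, (k i : ℝ) ^ 2) / (2 * d) * ∑' x, LE.sq x * g x := by
      obtain ⟨-, h2⟩ := hIso d g hd0 hSg hsym (fun i => Real.pi * (k i : ℝ))
      have h3 : ∀ x : Zd d, g x * ((∑ i, Real.pi * k i * (x i : ℝ)) ^ 2 / 2) =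
          g x * (∑ i, Real.pi * (k i : ℝ) * (x i : ℝ)) ^ 2 * (1 / 2) := fun x => by ring
      rw [tsum_congr h3, tsum_mul_right, h2]
      have h4 : ∀ i : Fin d, (Real.pi * (k i : ℝ)) ^ 2 = Real.pi ^ 2 * (k i : ℝ) ^ 2 :=
        fun i => by ring
      rw [Finset.sum_congr rfl fun i _ => h4 i, ← Finset.mul_sum]
      field_simp
    rw [hiso] at t1
    have t3 := tDh k hd0
    have t4 := tDh1 k hd0
    have t5 : Tendsto (fun n : ℕ => 2 * d * pH d * ((n : ℝ) ^ 2 * (1 - Dh (kap n k)) * FT g 0 +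
        Dh (kap n k) * ((n : ℝ) ^ 2 * (FT g 0 - FT g (kap n k))))) atTop
        (𝓝 (2 * d * pH d * (Real.pi ^ 2 * (∑ i, (k i : ℝ) ^ 2) / (2 * d) * FT g 0 +
          1 * (Real.pi ^ 2 * (∑ i, (k i : ℝ) ^ 2) / (2 * d) * ∑' x, LE.sq x * g x)))) :=
      ((t3.mul_const _).add (t4.mul t1)).const_mul _
    have e1 : 2 * d * pH d * (Real.pi ^ 2 * (∑ i, (k i : ℝ) ^ 2) / (2 * d) * FT g 0 +
          1 * (Real.pi ^ 2 * (∑ i, (k i : ℝ) ^ 2) / (2 * d) * ∑' x, LE.sq x * g x)) =
        Real.pi ^ 2 * pH d * (FT g 0 + ∑' x, LE.sq x * g x) / FT g 0 * (∑ i, (k i : ℝ) ^ 2) *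
          FT g 0 := by
      have hF0' := hF0.ne'
      field_simp
    rw [e1] at t5
    refine t5.congr fun n => ?_
    calc 2 * d * pH d * ((n : ℝ) ^ 2 * (1 - Dh (kap n k)) * FT g 0 +
        Dh (kap n k) * ((n : ℝ) ^ 2 * (FT g 0 - FT g (kap n k))))
        = (n : ℝ) ^ 2 * (2 * (d : ℝ) * pH d * FT g 0 -
          2 * d * pH d * Dh (kap n k) * FT g (kap n k)) := by ring
      _ = _ := by rw [hone]

end Pool.CN
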