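import Pool.Agent.Helper26.CL.St

/-! # Project CM, module C2s: the two-point function of the box on the sines, summed error -/

set_option autoImplicit false

open scoped BigOperators ENNReal Topology
open Pool.LE Pool.NL

namespace Pool.CN

theorem hC2s (hN2 : StN2) (hC2e : StC2e) (hC1b : StC1b) (hC1w : StC1w) (hBn : StBn)
    (hHh : StHh) (hBox : StBox) : StC2s := by
  classical
  intro d n p hd hp hp1 hZ hE hgs hgy k
  obtain ⟨hFG, -, -, -, -⟩ := hBn d n
  obtain ⟨-, hcp, hcpx, hcp0, hh1⟩ := hHh (Zd d) (Bn d n) (ES (Bn d n)) (2 * d) p hFG hp hp1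
  obtain ⟨-, -, -, hG, -⟩ := hN2 d n p hp hp1 hE
  obtain ⟨hnb, -, hout, -⟩ := hC1b d n k
  obtain ⟨-, -, -, hsym, -, -, -, -, -, -, -, hcard, -⟩ := hBox d
  set E := ES (Bn d n) with hEdef
  set K : ℝ := ∑ i, kap n k i with hK
  set g : ℝ := FT (gS d p) (kap n k) with hg
  set D : ℝ := Dh (kap n k) with hD
  have hK0 : 0 ≤ K := by
    refine Finset.sum_nonneg fun j _ => ?_
    unfold kap
    have := Real.pi_pos
    positivity
  -- the error
  let e : Zd d → ℝ := fun b => ∑ x ∈ Bn d n, gT E p b x * sk n k x - g * sk n k b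
  have he : ∀ b ∈ Bn d n, |e b| ≤ K * wb n b := fun b hb => hC2e d n p hd hp hp1 hZ hE hgs hgy k b hb
  -- the sum of the sines over neighbours in the box
  have hs1 : ∀ b ∈ Bn d n, ∑ u ∈ Bn d n, (if u ∈ nb b then sk n k u else 0) = 2 * d * D * sk n k b := by
    intro b hb
    rw [← hnb b, ← Finset.sum_filter]
    have h1 : (Bn d n).filter (fun u => u ∈ nb b) = (nb b).filter (fun u => u ∈ Bn d n) := by
      ext u
      simp only [Finset.mem_filter]
      tauto
    rw [h1, Finset.sum_filter]
    refine Finset.sum_congr rfl fun u hu => ?_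
    by_cases h : u ∈ Bn d n
    · rw [if_pos h]
    · rw [if_neg h, hout b hb u hu h]
  -- pointwise identity
  have hid : ∀ v ∈ Bn d n, (1 - 2 * d * p * D * g) * (∑ y ∈ Bn d n, cp E p v y * sk n k y) -
      g * sk n k v = e v + ∑ b ∈ Bn d n, cp E p v b * p * ∑ u ∈ Bn d n, (if u ∈ nb b then e u else 0) := by
    intro v hv
    have h1 : ∑ y ∈ Bn d n, cp E p v y * sk n k y = (∑ y ∈ Bn d n, gT E p v y * sk n k y) +
        ∑ b ∈ Bn d n, cp E p v b * p * ∑ u ∈ Bn d n, (if u ∈ nb b then
          (∑ y ∈ Bn d n, gT E p u y * sk n k y) else 0) := by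
      calc ∑ y ∈ Bn d n, cp E p v y * sk n k y
          = ∑ y ∈ Bn d n, (gT E p v y * sk n k y + ∑ b ∈ Bn d n, ∑ u ∈ Bn d n,
            (if u ∈ nb b then cp E p v b * p * gT E p u y * sk n k y else 0)) := by
            refine Finset.sum_congr rfl fun y hy => ?_
            rw [hG v hv y hy, add_mul, Finset.sum_mul]
            congr 1
            refine Finset.sum_congr rfl fun b _ => ?_
            rw [Finset.sum_mul]
            refine Finset.sum_congr rfl fun u _ => ?_
            split_ifs <;> ring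
        _ = _ := by
            rw [Finset.sum_add_distrib]
            congr 1
            rw [Finset.sum_comm]
            refine Finset.sum_congr rfl fun b _ => ?_
            rw [Finset.sum_comm, Finset.mul_sum]
            refine Finset.sum_congr rfl fun u _ => ?_
            split_ifs
            · rw [Finset.mul_sum]
              refine Finset.sum_congr rfl fun y _ => ?_
              ring
            · simp
    have h2 : ∀ u, ∑ y ∈ Bn d n, gT E p u y * sk n k y = e u + g * sk n k u := by
      intro u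
      show _ = (∑ x ∈ Bn d n, gT E p u x * sk n k x - g * sk n k u) + g * sk n k u
      ring
    have h3 : ∀ b ∈ Bn d n, ∑ u ∈ Bn d n, (if u ∈ nb b then
          (∑ y ∈ Bn d n, gT E p u y * sk n k y) else 0) =
        ∑ u ∈ Bn d n, (if u ∈ nb b then e u else 0) + g * (2 * d * D * sk n k b) := by
      intro b hb
      rw [← hs1 b hb, Finset.mul_sum, ← Finset.sum_add_distrib]
      refine Finset.sum_congr rfl fun u _ => ?_
      rw [h2 u]
      split_ifs <;> ring
    have h4 : ∑ b ∈ Bn d n, cp E p v b * p * ∑ u ∈ Bn d n, (if u ∈ nb b then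
          (∑ y ∈ Bn d n, gT E p u y * sk n k y) else 0) =
        ∑ b ∈ Bn d n, cp E p v b * p * ∑ u ∈ Bn d n, (if u ∈ nb b then e u else 0) +
        2 * d * p * D * g * ∑ b ∈ Bn d n, cp E p v b * sk n k b := by
      rw [Finset.mul_sum, ← Finset.sum_add_distrib]
      refine Finset.sum_congr rfl fun b hb => ?_
      rw [h3 b hb]
      ring
    have h5 := h1
    rw [h4, h2 v] at h5
    linarith
  -- neighbours: sum of errors
  have hs2 : ∀ b ∈ Bn d n, |∑ u ∈ Bn d n, (if u ∈ nb b then e u else 0)| ≤ 8 * d * K * wb n b := by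
    intro b hb
    obtain ⟨hw0, hwn, -⟩ := hC1w d n hd b hb
    rw [← Finset.sum_filter]
    have h1 : (Bn d n).filter (fun u => u ∈ nb b) = (nb b).filter (fun u => u ∈ Bn d n) := by
      ext u
      simp only [Finset.mem_filter]
      tauto
    rw [h1]
    calc |∑ u ∈ (nb b).filter (fun u => u ∈ Bn d n), e u|
        ≤ ∑ u ∈ (nb b).filter (fun u => u ∈ Bn d n), |e u| := Finset.abs_sum_le_sum_abs _ _
      _ ≤ ∑ u ∈ (nb b).filter (fun u => u ∈ Bn d n), K * (4 * wb n b) := by
          refine Finset.sum_le_sum fun u hu => ?_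
          rw [Finset.mem_filter] at hu
          exact (he u hu.2).trans (mul_le_mul_of_nonneg_left (hwn u hu.1 hu.2) hK0)
      _ ≤ ∑ _u ∈ nb b, K * (4 * wb n b) := by
          refine Finset.sum_le_sum_of_subset_of_nonneg (Finset.filter_subset _ _) ?_
          intro u _ _
          positivity
      _ = 8 * d * K * wb n b := by
          rw [Finset.sum_const, hcard, nsmul_eq_mul]
          push_cast
          ring
  -- summation
  have hw0 : ∀ b ∈ Bn d n, 0 ≤ wb n b := fun b hb => (hC1w d n hd b hb).1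
  calc ∑ v ∈ Bn d n, |(1 - 2 * d * p * D * g) * (∑ y ∈ Bn d n, cp E p v y * sk n k y) - g * sk n k v|
      ≤ ∑ v ∈ Bn d n, (K * wb n v + ∑ b ∈ Bn d n, cp E p v b * p * (8 * d * K * wb n b)) := by
        refine Finset.sum_le_sum fun v hv => ?_
        rw [hid v hv]
        refine (abs_add_le _ _).trans (add_le_add (he v hv) ?_)
        refine (Finset.abs_sum_le_sum_abs _ _).trans (Finset.sum_le_sum fun b hb => ?_)
        rw [abs_mul, abs_of_nonneg (mul_nonneg (hcp v b).2.1 hp)]
        exact mul_le_mul_of_nonneg_left (hs2 b hb) (mul_nonneg (hcp v b).2.1 hp)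
    _ = ∑ v ∈ Bn d n, K * wb n v + ∑ b ∈ Bn d n, hh (Bn d n) E p b * (p * (8 * d * K * wb n b)) := by
        rw [Finset.sum_add_distrib]
        congr 1
        rw [Finset.sum_comm]
        refine Finset.sum_congr rfl fun b _ => ?_
        unfold hh
        rw [Finset.sum_mul]
        refine Finset.sum_congr rfl fun v _ => ?_
        rw [(hcp v b).1]
        ring
    _ ≤ ∑ b ∈ Bn d n, hh (Bn d n) E p b * (K * wb n b) +
          ∑ b ∈ Bn d n, hh (Bn d n) E p b * (p * (8 * d * K * wb n b)) := by
        refine add_le_add (Finset.sum_le_sum fun b hb => ?_) le_rfl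
        exact le_mul_of_one_le_left (mul_nonneg hK0 (hw0 b hb)) (hh1 b hb)
    _ = K * (1 + 8 * d * p) * ∑ b ∈ Bn d n, hh (Bn d n) E p b * wb n b := by
        rw [← Finset.sum_add_distrib, Finset.mul_sum (s := Bn d n)]
        refine Finset.sum_congr rfl fun b _ => ?_
        ring

end Pool.CN
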