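import Pool.Agent.Helper26.CL.M_C

/-! # Project CM, module CCT: the class is stable under the two-point function -/

set_option autoImplicit false

open scoped BigOperators ENNReal Topology
open Pool.LE Pool.NL Filter

namespace Pool.CN

theorem hCCTp (hDens : StDens) (hHub : StHub) (hBn : StBn) (hHh : StHh) (d : ℕ) (C₁ B c₀ : ℝ)
    (env : Env d C₁ B c₀) (hCP : CP d) (f : ℕ → Zd d → ℝ) (hf : CC d f) :
    CC d (fun n v => Tn d n (f n) v) := by
  classical
  have hd1 : 1 ≤ d := le_trans (by norm_num) env.hd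
  obtain ⟨c, hc, hlim⟩ := hCP
  obtain ⟨⟨M, hM⟩, happ⟩ := hf
  have hC1 : 0 < C₁ := lt_of_lt_of_le one_pos env.hC
  have hp0 : 0 ≤ pH d := env.p0.le
  have hp1 : pH d ≤ 1 := le_trans env.p1 (by norm_num)
  have hcp : ∀ n : ℕ, ∀ x y : Zd d, cp (ES (Bn d n)) (pH d) x y = cp (ES (Bn d n)) (pH d) y x ∧
      0 ≤ cp (ES (Bn d n)) (pH d) x y := by
    intro n x y
    have := (hHh (Zd d) (Bn d n) (ES (Bn d n)) (2 * d) (pH d) (hBn d n).1 hp0 hp1).2.1 x y
    exact ⟨this.1, this.2.1⟩
  have hTlin : ∀ (n : ℕ) (u w : Zd d → ℝ) (v : Zd d),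
      Tn d n (fun x => u x - w x) v = Tn d n u v - Tn d n w v := by
    intro n u w v
    unfold Tn
    rw [← mul_sub, ← Finset.sum_sub_distrib]
    congr 1
    refine Finset.sum_congr rfl fun y _ => ?_
    ring
  -- `L¹` bound
  have hL1 : ∀ n : ℕ, 1 ≤ n → ∀ h : Zd d → ℝ,
      ∑ v ∈ Bn d n, |Tn d n h v| ≤ C₁ * ∑ y ∈ Bn d n, |h y| := by
    intro n hn h
    have hn0 : (0 : ℝ) < n := by exact_mod_cast hn
    calc ∑ v ∈ Bn d n, |Tn d n h v|
        ≤ ∑ v ∈ Bn d n, (1 / (n : ℝ) ^ 2) * ∑ y ∈ Bn d n, cp (ES (Bn d n)) (pH d) v y * |h y| := by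
          refine Finset.sum_le_sum fun v _ => ?_
          unfold Tn
          rw [abs_mul, abs_of_nonneg (by positivity : (0 : ℝ) ≤ 1 / (n : ℝ) ^ 2)]
          gcongr
          refine (Finset.abs_sum_le_sum_abs _ _).trans (Finset.sum_le_sum fun y _ => ?_)
          rw [abs_mul, abs_of_nonneg (hcp n v y).2]
      _ = (1 / (n : ℝ) ^ 2) * ∑ y ∈ Bn d n, hh (Bn d n) (ES (Bn d n)) (pH d) y * |h y| := by
          rw [← Finset.mul_sum, Finset.sum_comm]
          congr 1
          refine Finset.sum_congr rfl fun y _ => ?_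
          unfold hh
          rw [Finset.sum_mul]
          refine Finset.sum_congr rfl fun v _ => ?_
          rw [(hcp n v y).1]
      _ ≤ (1 / (n : ℝ) ^ 2) * ∑ y ∈ Bn d n, (C₁ * (n : ℝ) ^ 2) * |h y| := by
          gcongr with y hy
          exact hHub d C₁ B c₀ env n hn y hy
      _ = C₁ * ∑ y ∈ Bn d n, |h y| := by
          rw [← Finset.mul_sum]
          field_simp
  refine ⟨⟨C₁ * |M|, fun n x hx => ?_⟩, fun ε hε => ?_⟩
  · -- boundedness
    rcases Nat.eq_zero_or_pos n with hn | hn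
    · subst hn
      exfalso
      have h3 := ((hBn d 0).2.2.2.1 x).1 hx ⟨0, hd1⟩
      have h4 := h3.1
      have h5 := h3.2
      push_cast at h5
      omega
    have hn0 : (0 : ℝ) < n := by exact_mod_cast hn
    calc |Tn d n (f n) x|
        ≤ (1 / (n : ℝ) ^ 2) * ∑ y ∈ Bn d n, cp (ES (Bn d n)) (pH d) x y * |M| := by
          unfold Tn
          rw [abs_mul, abs_of_nonneg (by positivity : (0 : ℝ) ≤ 1 / (n : ℝ) ^ 2)]
          gcongr
          refine (Finset.abs_sum_le_sum_abs _ _).trans (Finset.sum_le_sum fun y hy => ?_)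
          rw [abs_mul, abs_of_nonneg (hcp n x y).2]
          exact mul_le_mul_of_nonneg_left ((hM n y hy).trans (le_abs_self M)) (hcp n x y).2
      _ = (1 / (n : ℝ) ^ 2) * (hh (Bn d n) (ES (Bn d n)) (pH d) x * |M|) := by
          unfold hh
          rw [Finset.sum_mul]
      _ ≤ (1 / (n : ℝ) ^ 2) * ((C₁ * (n : ℝ) ^ 2) * |M|) := by
          gcongr
          exact hHub d C₁ B c₀ env n hn x hx
      _ = C₁ * |M| := by
          field_simp
  · -- approximation
    obtain ⟨g, hg, n₁, hn₁⟩ := happ (ε / (4 * C₁)) (by positivity)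
    obtain ⟨K, a, hK, n₂, hn₂⟩ := hDens d g hg (ε / (4 * C₁)) (by positivity)
    set S : (Fin d → ℕ) → ℝ := fun k => c * ∑ i, (k i : ℝ) ^ 2 with hS
    set A : ℝ := ∑ k ∈ K, |a k| with hA
    have hA0 : 0 ≤ A := Finset.sum_nonneg fun k _ => abs_nonneg _
    -- threshold for the frequencies in `K`
    have hthr : ∀ᶠ n : ℕ in atTop, ∀ k ∈ K, (1 / (n : ℝ) ^ d) * ∑ v ∈ Bn d n,
        |Tn d n (sk n k) v - sk n k v / S k| ≤ ε / (2 * (A + 1)) := by
      rw [Filter.eventually_all_finset]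
      intro k hk
      have h3 := hlim k (hK k hk)
      have h4 : (0 : ℝ) < ε / (2 * (A + 1)) := by positivity
      exact (h3.eventually (gt_mem_nhds h4)).mono fun n hn => hn.le
    obtain ⟨n₃, hn₃⟩ := eventually_atTop.1 hthr
    refine ⟨fun t => ∑ k ∈ K, a k * (∏ i, Real.sin (Real.pi * k i * t i)) / S k, ?_,
      max 1 (max n₁ (max n₂ n₃)), fun n hn => ?_⟩
    · fun_prop
    have hn1 : 1 ≤ n := le_trans (le_max_left _ _) hn
    have hnn : max n₁ (max n₂ n₃) ≤ n := le_trans (le_max_right _ _) hn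
    have ha := hn₁ n (le_trans (le_max_left _ _) hnn)
    have hb := hn₂ n (le_trans (le_max_left _ _) (le_trans (le_max_right _ _) hnn))
    have hk := hn₃ n (le_trans (le_max_right _ _) (le_trans (le_max_right _ _) hnn))
    have hn0 : (0 : ℝ) < n := by exact_mod_cast hn1
    have hnd : (0 : ℝ) < (n : ℝ) ^ d := by positivity
    let P : Zd d → ℝ := fun x => ∑ k ∈ K, a k * sk n k x
    have hsk : ∀ (k : Fin d → ℕ) (x : Zd d), (∏ i, Real.sin (Real.pi * k i * rs n x i)) = sk n k x := by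
      intro k x
      unfold sk rs kap
      refine Finset.prod_congr rfl fun i _ => ?_
      congr 1
      ring
    have h3 : ∑ x ∈ Bn d n, |f n x - P x| ≤ ε / (2 * C₁) * (n : ℝ) ^ d := by
      calc ∑ x ∈ Bn d n, |f n x - P x|
          ≤ ∑ x ∈ Bn d n, (|f n x - g (rs n x)| + |g (rs n x) - P x|) :=
            Finset.sum_le_sum fun x _ => abs_sub_le _ _ _
        _ ≤ ε / (4 * C₁) * (n : ℝ) ^ d + ε / (4 * C₁) * (n : ℝ) ^ d := by
            rw [Finset.sum_add_distrib]
            exact add_le_add ha hb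
        _ = ε / (2 * C₁) * (n : ℝ) ^ d := by
            field_simp
            ring
    have h4 : ∑ v ∈ Bn d n, |Tn d n (f n) v - Tn d n P v| ≤ ε / 2 * (n : ℝ) ^ d := by
      have h5 := hL1 n hn1 (fun x => f n x - P x)
      simp only [hTlin] at h5
      refine h5.trans ?_
      calc C₁ * ∑ y ∈ Bn d n, |f n y - P y| ≤ C₁ * (ε / (2 * C₁) * (n : ℝ) ^ d) := by gcongr
        _ = ε / 2 * (n : ℝ) ^ d := by
            field_simp
    have hTP : ∀ v, Tn d n P v = ∑ k ∈ K, a k * Tn d n (sk n k) v := by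
      intro v
      unfold Tn
      simp only [P, Finset.mul_sum]
      rw [Finset.sum_comm]
      refine Finset.sum_congr rfl fun k _ => ?_
      refine Finset.sum_congr rfl fun y _ => ?_
      ring
    have h5 : ∑ v ∈ Bn d n, |Tn d n P v - ∑ k ∈ K, a k * sk n k v / S k| ≤ ε / 2 * (n : ℝ) ^ d := by
      calc ∑ v ∈ Bn d n, |Tn d n P v - ∑ k ∈ K, a k * sk n k v / S k|
          ≤ ∑ v ∈ Bn d n, ∑ k ∈ K, |a k| * |Tn d n (sk n k) v - sk n k v / S k| := by
            refine Finset.sum_le_sum fun v _ => ?_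
            rw [hTP v, ← Finset.sum_sub_distrib]
            refine (Finset.abs_sum_le_sum_abs _ _).trans (Finset.sum_le_sum fun k _ => ?_)
            rw [mul_div_assoc, ← mul_sub, abs_mul]
        _ = ∑ k ∈ K, |a k| * ∑ v ∈ Bn d n, |Tn d n (sk n k) v - sk n k v / S k| := by
            rw [Finset.sum_comm]
            refine Finset.sum_congr rfl fun k _ => ?_
            rw [Finset.mul_sum]
        _ ≤ ∑ k ∈ K, |a k| * (ε / (2 * (A + 1)) * (n : ℝ) ^ d) := by
            refine Finset.sum_le_sum fun k hkK => ?_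
            refine mul_le_mul_of_nonneg_left ?_ (abs_nonneg _)
            have h6 := hk k hkK
            rw [one_div, inv_mul_le_iff₀ hnd] at h6
            linarith
        _ = A * (ε / (2 * (A + 1)) * (n : ℝ) ^ d) := by rw [← Finset.sum_mul]
        _ ≤ (A + 1) * (ε / (2 * (A + 1)) * (n : ℝ) ^ d) := by
            gcongr
            linarith
        _ = ε / 2 * (n : ℝ) ^ d := by
            field_simp
    calc ∑ x ∈ Bn d n, |Tn d n (f n) x -
          (fun t : Fin d → ℝ => ∑ k ∈ K, a k * (∏ i, Real.sin (Real.pi * k i * t i)) / S k) (rs n x)|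
        = ∑ x ∈ Bn d n, |Tn d n (f n) x - ∑ k ∈ K, a k * sk n k x / S k| := by
          refine Finset.sum_congr rfl fun x _ => ?_
          simp only [hsk]
      _ ≤ ∑ x ∈ Bn d n, (|Tn d n (f n) x - Tn d n P x| +
            |Tn d n P x - ∑ k ∈ K, a k * sk n k x / S k|) :=
          Finset.sum_le_sum fun x _ => abs_sub_le _ _ _
      _ ≤ ε / 2 * (n : ℝ) ^ d + ε / 2 * (n : ℝ) ^ d := by
          rw [Finset.sum_add_distrib]
          exact add_le_add h4 h5
      _ = ε * (n : ℝ) ^ d := by ring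

theorem hCCT (hC : StC) (hDens : StDens) (hEnv : StEnv) (hHub : StHub) (hBn : StBn) (hHh : StHh) :
    StCCT := by
  obtain ⟨d₀, h0⟩ := hEnv
  obtain ⟨d₁, h1⟩ := hC
  refine ⟨max d₀ d₁, fun d hd f hf => ?_⟩
  obtain ⟨-, C₁, B, c₀, env⟩ := h0 d (le_trans (le_max_left _ _) hd)
  exact hCCTp hDens hHub hBn hHh d C₁ B c₀ env (h1 d (le_trans (le_max_right _ _) hd)) f hf

end Pool.CN
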