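import Pool.Agent.Helper26.CL.St

/-! # Project CM, module CCa: the class is an algebra -/

set_option autoImplicit false

open scoped BigOperators ENNReal Topology
open Pool.LE Pool.NL Filter

namespace Pool.CN

namespace CCaM

/-- a continuous function is bounded on the rescaled points of the box -/
theorem bdd (hBn : StBn) (d : ℕ) (g : (Fin d → ℝ) → ℝ) (hg : Continuous g) :
    ∃ M : ℝ, 0 ≤ M ∧ ∀ n : ℕ, ∀ x ∈ Bn d n, |g (rs n x)| ≤ M := by
  have hcpt : IsCompact (Set.Icc (0 : Fin d → ℝ) 1) := isCompact_Icc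
  obtain ⟨M, hM⟩ := hcpt.exists_bound_of_continuousOn hg.continuousOn
  refine ⟨|M|, abs_nonneg _, fun n x hx => ?_⟩
  have h1 := ((hBn d n).2.2.2.1 x).1 hx
  have h2 : rs n x ∈ Set.Icc (0 : Fin d → ℝ) 1 := by
    constructor
    · intro i
      have h3 : (0 : ℝ) ≤ x i := by exact_mod_cast (h1 i).1
      show (0 : ℝ) ≤ ((x i : ℝ) + 1) / (n + 1)
      positivity
    · intro i
      have h3 : (x i : ℝ) < n := by exact_mod_cast (h1 i).2
      show ((x i : ℝ) + 1) / (n + 1) ≤ 1
      rw [div_le_one (by positivity)]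
      linarith
  have h3 := hM _ h2
  rw [Real.norm_eq_abs] at h3
  exact h3.trans (le_abs_self _)

theorem npos (n d : ℕ) : (0 : ℝ) ≤ (n : ℝ) ^ d := by positivity

end CCaM

open CCaM

theorem hCCa (hBn : StBn) : StCCa := by
  intro d
  have hadd : ∀ f g : ℕ → Zd d → ℝ, CC d f → CC d g → CC d (fun n x => f n x + g n x) := by
    intro f g hf hg
    obtain ⟨⟨M, hM⟩, hf2⟩ := hf
    obtain ⟨⟨M', hM'⟩, hg2⟩ := hg
    refine ⟨⟨M + M', fun n x hx => (abs_add_le _ _).trans (add_le_add (hM n x hx) (hM' n x hx))⟩,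
      fun ε hε => ?_⟩
    obtain ⟨u, hu, n₁, h1⟩ := hf2 (ε / 2) (by positivity)
    obtain ⟨v, hv, n₂, h2⟩ := hg2 (ε / 2) (by positivity)
    refine ⟨fun t => u t + v t, hu.add hv, max n₁ n₂, fun n hn => ?_⟩
    have h3 := h1 n (le_trans (le_max_left _ _) hn)
    have h4 := h2 n (le_trans (le_max_right _ _) hn)
    calc ∑ x ∈ Bn d n, |f n x + g n x - (u (rs n x) + v (rs n x))|
        ≤ ∑ x ∈ Bn d n, (|f n x - u (rs n x)| + |g n x - v (rs n x)|) := by
          refine Finset.sum_le_sum fun x _ => ?_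
          have : f n x + g n x - (u (rs n x) + v (rs n x)) =
            (f n x - u (rs n x)) + (g n x - v (rs n x)) := by ring
          rw [this]
          exact abs_add_le _ _
      _ ≤ ε / 2 * (n : ℝ) ^ d + ε / 2 * (n : ℝ) ^ d := by
          rw [Finset.sum_add_distrib]
          exact add_le_add h3 h4
      _ = ε * (n : ℝ) ^ d := by ring
  have hmul : ∀ (c : ℝ) (f : ℕ → Zd d → ℝ), CC d f → CC d (fun n x => c * f n x) := by
    intro c f hf
    obtain ⟨⟨M, hM⟩, hf2⟩ := hf
    refine ⟨⟨|c| * M, fun n x hx => ?_⟩, fun ε hε => ?_⟩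
    · rw [abs_mul]
      exact mul_le_mul_of_nonneg_left (hM n x hx) (abs_nonneg _)
    obtain ⟨u, hu, n₁, h1⟩ := hf2 (ε / (|c| + 1)) (by positivity)
    refine ⟨fun t => c * u t, hu.const_mul c |> fun h => h, n₁, fun n hn => ?_⟩
    have h3 := h1 n hn
    calc ∑ x ∈ Bn d n, |c * f n x - c * u (rs n x)|
        = |c| * ∑ x ∈ Bn d n, |f n x - u (rs n x)| := by
          rw [Finset.mul_sum]
          refine Finset.sum_congr rfl fun x _ => ?_
          rw [← mul_sub, abs_mul]
      _ ≤ |c| * (ε / (|c| + 1) * (n : ℝ) ^ d) := by gcongr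
      _ ≤ (|c| + 1) * (ε / (|c| + 1) * (n : ℝ) ^ d) := by
          gcongr
          linarith
      _ = ε * (n : ℝ) ^ d := by
          field_simp
  refine ⟨fun c => ⟨⟨|c|, fun _ _ _ => le_rfl⟩, fun ε hε => ⟨fun _ => c, continuous_const, 0,
    fun n _ => ?_⟩⟩, hadd, fun f g hf hg => ?_, hmul, fun f g hf hg => ?_, fun g hg => ?_,
    fun f hb hf => ⟨hb, fun ε hε => ?_⟩⟩
  · simp only [sub_self, abs_zero, Finset.sum_const_zero]
    have := npos n d
    positivity
  · have h1 := hadd f (fun n x => (-1) * g n x) hf (hmul (-1) g hg)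
    refine (show (fun n x => f n x + (-1) * g n x) = (fun n x => f n x - g n x) from ?_) ▸ h1
    funext n x
    ring
  · -- products
    obtain ⟨⟨M, hM⟩, hf2⟩ := hf
    obtain ⟨⟨M', hM'⟩, hg2⟩ := hg
    refine ⟨⟨|M| * |M'|, fun n x hx => ?_⟩, fun ε hε => ?_⟩
    · rw [abs_mul]
      exact mul_le_mul ((hM n x hx).trans (le_abs_self _)) ((hM' n x hx).trans (le_abs_self _))
        (abs_nonneg _) (abs_nonneg _)
    obtain ⟨v, hv, n₂, h2⟩ := hg2 (ε / (2 * (|M| + 1))) (by positivity)
    obtain ⟨B, hB0, hB⟩ := bdd hBn d v hv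
    obtain ⟨u, hu, n₁, h1⟩ := hf2 (ε / (2 * (B + 1))) (by positivity)
    refine ⟨fun t => u t * v t, hu.mul hv, max n₁ n₂, fun n hn => ?_⟩
    have h3 := h1 n (le_trans (le_max_left _ _) hn)
    have h4 := h2 n (le_trans (le_max_right _ _) hn)
    calc ∑ x ∈ Bn d n, |f n x * g n x - u (rs n x) * v (rs n x)|
        ≤ ∑ x ∈ Bn d n, ((|M| + 1) * |g n x - v (rs n x)| + (B + 1) * |f n x - u (rs n x)|) := by
          refine Finset.sum_le_sum fun x hx => ?_
          have e1 : f n x * g n x - u (rs n x) * v (rs n x) =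
            f n x * (g n x - v (rs n x)) + v (rs n x) * (f n x - u (rs n x)) := by ring
          rw [e1]
          refine (abs_add_le _ _).trans ?_
          rw [abs_mul, abs_mul]
          have h5 : |f n x| ≤ |M| + 1 := by
            have := (hM n x hx).trans (le_abs_self M)
            linarith
          have h6 : |v (rs n x)| ≤ B + 1 := by
            have := hB n x hx
            linarith
          gcongr
      _ ≤ (|M| + 1) * (ε / (2 * (|M| + 1)) * (n : ℝ) ^ d) +
          (B + 1) * (ε / (2 * (B + 1)) * (n : ℝ) ^ d) := by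
          rw [Finset.sum_add_distrib, ← Finset.mul_sum, ← Finset.mul_sum]
          gcongr
      _ = ε * (n : ℝ) ^ d := by
          field_simp
          ring
  · -- continuous functions
    obtain ⟨B, -, hB⟩ := bdd hBn d g hg
    refine ⟨⟨B, hB⟩, fun ε hε => ⟨g, hg, 0, fun n _ => ?_⟩⟩
    simp only [sub_self, abs_zero, Finset.sum_const_zero]
    have := npos n d
    positivity
  · -- limits
    obtain ⟨g, hg, n₁, h1⟩ := hf (ε / 2) (by positivity)
    obtain ⟨u, hu, n₂, h2⟩ := hg.2 (ε / 2) (by positivity)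
    refine ⟨u, hu, max n₁ n₂, fun n hn => ?_⟩
    have h3 := h1 n (le_trans (le_max_left _ _) hn)
    have h4 := h2 n (le_trans (le_max_right _ _) hn)
    calc ∑ x ∈ Bn d n, |f n x - u (rs n x)|
        ≤ ∑ x ∈ Bn d n, (|f n x - g n x| + |g n x - u (rs n x)|) :=
          Finset.sum_le_sum fun x _ => abs_sub_le _ _ _
      _ ≤ ε / 2 * (n : ℝ) ^ d + ε / 2 * (n : ℝ) ^ d := by
          rw [Finset.sum_add_distrib]
          exact add_le_add h3 h4
      _ = ε * (n : ℝ) ^ d := by ring

end Pool.CN
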