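import Pool.Agent.Helper26.CL.St

/-! # Project CM, module N1: third moment locality of the expansion in the box -/

set_option autoImplicit false

open scoped BigOperators ENNReal Topology
open Pool.LE Pool.NL

namespace Pool.CN

namespace N1M

theorem abs_tsum (f : ℕ → ℝ) :
    ENNReal.ofReal |∑' m, f m| ≤ ∑' m, ENNReal.ofReal |f m| := by
  by_cases h : Summable f
  · have h5 : Summable fun m => |f m| := h.abs
    rw [← ENNReal.ofReal_tsum_of_nonneg (fun _ => abs_nonneg _) h5]
    refine ENNReal.ofReal_le_ofReal ?_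
    exact norm_tsum_le_tsum_norm (f := f) h5
  · rw [tsum_eq_zero_of_not_summable h]
    simp

theorem tail {A : Type} (R : ℕ) (f : A → ℕ → ENNReal) :
    (1 + (R : ENNReal)) ^ 2 * ∑' u : A, ∑' m : ℕ, (if R ≤ m then 2 * (1 + (m : ENNReal)) * f u m else 0) ≤
      2 * ∑' u : A, ∑' m : ℕ, (1 + (m : ENNReal)) ^ 3 * f u m := by
  rw [← ENNReal.tsum_mul_left, ← ENNReal.tsum_mul_left]
  refine ENNReal.tsum_le_tsum fun u => ?_
  rw [← ENNReal.tsum_mul_left, ← ENNReal.tsum_mul_left]
  refine ENNReal.tsum_le_tsum fun m => ?_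
  by_cases h : R ≤ m
  · rw [if_pos h]
    calc (1 + (R : ENNReal)) ^ 2 * (2 * (1 + (m : ENNReal)) * f u m)
        ≤ (1 + (m : ENNReal)) ^ 2 * (2 * (1 + (m : ENNReal)) * f u m) := by gcongr
      _ = 2 * ((1 + (m : ENNReal)) ^ 3 * f u m) := by ring
  · rw [if_neg h, mul_zero]
    exact zero_le

end N1M

open N1M

theorem hN1 (hGLs : StGLs) (hFin : StFin) (hG : StGcoef) (hSupp : StSupp)
    (hBox : StBox) (hBn : StBn) : StN1 := by
  classical
  intro d n R p hd hp hp1 hZ hE hR v hv i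
  obtain ⟨-, -, hlat, -, -⟩ := hBn d n
  obtain ⟨-, hbx, -, -, h5, h6, h7, h8, -, h10, -, hcard, -⟩ := hBox d
  set E := ES (Bn d n) with hEdef
  have hmono : ∀ (m : ℕ) (x : Zd d), m ≤ R - 1 → x ∈ bx d m → x ∈ bx d (R - 1) := by
    intro m x hm hx
    rw [hbx] at hx ⊢
    intro j
    exact (hx j).trans (by exact_mod_cast hm)
  have hco : ∀ (m : ℕ) (u : Zd d), m ≤ R - 1 → gL E p v u m = gm d p m (u - v) := by
    intro m u hm
    refine hG d p m m E v u le_rfl hlat ?_
    intro e he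
    unfold trE at he
    rw [Finset.mem_map] at he
    obtain ⟨e0, he0, rfl⟩ := he
    induction e0 using Sym2.ind with
    | _ y z =>
      unfold Eb at he0
      rw [h8] at he0
      have e1 : (Equiv.addLeft v).toEmbedding.sym2Map s(y, z) = s(v + y, v + z) := rfl
      rw [e1, hEdef, h8]
      exact ⟨hv y (hmono m y hm he0.1), hv z (hmono m z hm he0.2.1), (h5 _ _ v).1 he0.2.2⟩
  obtain hF := hFin d E p hp hp1 hlat hE v v
  have hsL : ∀ u : Zd d, Summable (fun m => gL E p v u m) := fun u => (hF.1 v u).of_abs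
  have hsZ : ∀ x : Zd d, Summable (fun m => gm d p m x) := by
    intro x
    have h1 : ∑' m : ℕ, ENNReal.ofReal |hm d p m x| ≠ ⊤ := by
      refine ne_top_of_le_ne_top ENNReal.ofReal_ne_top (le_trans ?_ hZ)
      refine le_trans ?_ (ENNReal.le_tsum x)
      refine ENNReal.tsum_le_tsum fun m => ?_
      refine le_mul_of_one_le_left zero_le ?_
      exact one_le_pow₀ le_self_add
    have h2 := ENNReal.summable_toReal h1
    have h3 : Summable (fun m => hm d p m x) := by
      refine Summable.of_abs (h2.congr fun q => ?_)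
      rw [ENNReal.toReal_ofReal (abs_nonneg _)]
    rw [← summable_nat_add_iff 1] at h3 ⊢
    refine h3.congr fun m => ?_
    unfold hm
    rw [if_neg (by omega), sub_zero]
  let G : Zd d → ℕ → ENNReal := fun u m =>
    ENNReal.ofReal |gL E p v u m - ind (m = 0 ∧ u = v)| + ENNReal.ofReal |hm d p m (u - v)|
  let H : Zd d → ENNReal := fun u => ∑' m : ℕ, if R ≤ m then 2 * (1 + (m : ENNReal)) * G u m else 0
  have hhm : ∀ (m : ℕ) (x : Zd d), R ≤ m → hm d p m x = gm d p m x := by
    intro m x hm'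
    unfold hm
    rw [if_neg (by omega), sub_zero]
  have hind : ∀ (m : ℕ) (u : Zd d), R ≤ m → ind (m = 0 ∧ u = v) = 0 := by
    intro m u hm'
    unfold ind
    rw [if_neg (by omega)]
  have hA : ∀ x : Zd d, ENNReal.ofReal (((R : ℝ) + |(x i : ℝ) - v i|) *
      |gT E p v x - gS d p (x - v)|) ≤ H x := by
    intro x
    have hw0 : 0 ≤ (R : ℝ) + |(x i : ℝ) - v i| := by positivity
    unfold gT gS
    rw [← (hsL x).tsum_sub (hsZ (x - v)), ENNReal.ofReal_mul hw0]
    refine (mul_le_mul_right (abs_tsum _) _).trans ?_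
    rw [← ENNReal.tsum_mul_left]
    refine ENNReal.tsum_le_tsum fun m => ?_
    by_cases hm' : R ≤ m
    · rw [if_pos hm']
      by_cases hx : x - v ∈ bx d m
      · have h1 : |(x i : ℝ) - v i| ≤ m := by
          have h2 := (hbx m (x - v)).1 hx i
          rw [Pi.sub_apply] at h2
          have h3 : ((|x i - v i| : ℤ) : ℝ) ≤ ((m : ℤ) : ℝ) := by exact_mod_cast h2
          rw [Int.cast_abs, Int.cast_sub] at h3
          exact_mod_cast h3
        have h2 : ENNReal.ofReal ((R : ℝ) + |(x i : ℝ) - v i|) ≤ 2 * (1 + (m : ENNReal)) := by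
          have h3 : (2 * (1 + (m : ENNReal))) = ENNReal.ofReal (2 * (1 + (m : ℝ))) := by
            rw [ENNReal.ofReal_mul (by norm_num), ENNReal.ofReal_add zero_le_one (by positivity),
              ENNReal.ofReal_one, ENNReal.ofReal_natCast]
            norm_num
          rw [h3]
          refine ENNReal.ofReal_le_ofReal ?_
          have h4 : (R : ℝ) ≤ m := by exact_mod_cast hm'
          linarith
        refine mul_le_mul' h2 ?_
        show _ ≤ ENNReal.ofReal |gL E p v x m - ind (m = 0 ∧ x = v)| +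
          ENNReal.ofReal |hm d p m (x - v)|
        rw [hhm m _ hm', hind m x hm', sub_zero,
          ← ENNReal.ofReal_add (abs_nonneg _) (abs_nonneg _)]
        exact ENNReal.ofReal_le_ofReal (abs_sub _ _)
      · rw [hGLs d E p m v x hlat hx, (hSupp d p m _ hx).2]
        simp
    · rw [if_neg hm', hco m x (by omega)]
      simp
  have hH : (1 + (R : ENNReal)) ^ 2 * ∑' u : Zd d, H u ≤ 1 := by
    refine (tail R G).trans ?_
    have e1 : ∀ (u : Zd d) (m : ℕ), (1 + (m : ENNReal)) ^ 3 * G u m =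
        (1 + (m : ENNReal)) ^ 3 * ENNReal.ofReal |gL E p v u m - ind (m = 0 ∧ u = v)| +
        (1 + (m : ENNReal)) ^ 3 * ENNReal.ofReal |hm d p m (u - v)| := fun u m => mul_add _ _ _
    simp only [e1, ENNReal.tsum_add]
    have e2 : (∑' u : Zd d, ∑' m : ℕ, (1 + (m : ENNReal)) ^ 3 *
        ENNReal.ofReal |hm d p m (u - v)|) = ∑' u : Zd d, ∑' m : ℕ, (1 + (m : ENNReal)) ^ 3 *
        ENNReal.ofReal |hm d p m u| :=
      (Equiv.subRight v).tsum_eq (fun u => ∑' m : ℕ, (1 + (m : ENNReal)) ^ 3 *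
        ENNReal.ofReal |hm d p m u|)
    rw [e2]
    calc 2 * ((∑' u : Zd d, ∑' m : ℕ, (1 + (m : ENNReal)) ^ 3 *
        ENNReal.ofReal |gL E p v u m - ind (m = 0 ∧ u = v)|) +
        ∑' u : Zd d, ∑' m : ℕ, (1 + (m : ENNReal)) ^ 3 * ENNReal.ofReal |hm d p m u|)
        ≤ 2 * (ENNReal.ofReal (1 / 4) + ENNReal.ofReal (1 / 4)) :=
          mul_le_mul_right (add_le_add (hE v) hZ) _
      _ = ENNReal.ofReal 2 * ENNReal.ofReal (1 / 2) := by
          rw [← ENNReal.ofReal_add (by norm_num) (by norm_num)]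
          norm_num
      _ = 1 := by
          rw [← ENNReal.ofReal_mul (by norm_num)]
          norm_num
  have hfin : (∑' x : Zd d, ENNReal.ofReal (((R : ℝ) + |(x i : ℝ) - v i|) *
      |gT E p v x - gS d p (x - v)|)) ≤ ENNReal.ofReal (1 / (R : ℝ) ^ 2) := by
    have h1 : (∑' x : Zd d, ENNReal.ofReal (((R : ℝ) + |(x i : ℝ) - v i|) *
      |gT E p v x - gS d p (x - v)|)) * (1 + (R : ENNReal)) ^ 2 ≤ 1 := by
      refine le_trans ?_ hH
      rw [mul_comm]
      exact mul_le_mul_right (ENNReal.tsum_le_tsum hA) _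
    have h3 := ENNReal.le_inv_iff_mul_le.2 h1
    refine h3.trans ?_
    have hR0 : (0 : ℝ) < R := by exact_mod_cast hR
    have e : ((1 + (R : ENNReal)) ^ 2)⁻¹ = ENNReal.ofReal (((1 + (R : ℝ)) ^ 2)⁻¹) := by
      rw [ENNReal.ofReal_inv_of_pos (by positivity), ENNReal.ofReal_pow (by positivity),
        ENNReal.ofReal_add zero_le_one hR0.le, ENNReal.ofReal_one, ENNReal.ofReal_natCast]
    rw [e]
    refine ENNReal.ofReal_le_ofReal ?_
    rw [inv_eq_one_div]
    refine one_div_le_one_div_of_le (by positivity) ?_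
    gcongr
    linarith
  have hnn : ∀ x : Zd d, 0 ≤ ((R : ℝ) + |(x i : ℝ) - v i|) * |gT E p v x - gS d p (x - v)| :=
    fun x => by positivity
  have hsum : Summable (fun x : Zd d => ((R : ℝ) + |(x i : ℝ) - v i|) *
      |gT E p v x - gS d p (x - v)|) := by
    have h2 := ENNReal.summable_toReal (ne_top_of_le_ne_top ENNReal.ofReal_ne_top hfin)
    refine h2.congr fun b => ?_
    rw [ENNReal.toReal_ofReal (hnn b)]
  refine ⟨hsum, ?_⟩
  rw [← ENNReal.ofReal_tsum_of_nonneg hnn hsum] at hfin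
  rwa [ENNReal.ofReal_le_ofReal_iff (by positivity)] at hfin

end Pool.CN
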