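import Pool.Agent.Helper22.NL.All
import Pool.Agent.Helper26.CL.OutB
import Pool.Agent.Helper26.CL.M_N1
import Pool.Agent.Helper26.CL.M_C2e
import Pool.Agent.Helper26.CL.M_C2s
import Pool.Agent.Helper71.CL.M_N2
import Pool.Agent.Helper6.CL.M_C1
import Pool.Agent.Helper73.CL.M_C1b
import Pool.Agent.Helper76.CL.M_C1w
import Pool.Agent.Helper4.CL.M_Mp
import Pool.Agent.Helper58.CL.M_Un
import Pool.Agent.Helper80.CL.M_Rf
import Pool.Agent.Helper46.CL.M_NF1
import Pool.Agent.Helper89.CL.M_NF2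
import Pool.Agent.Helper48.CL.M_Hw
import Pool.Agent.Helper63.CL.M_Rie
import Pool.Agent.Helper91.CL.M_CCv
import Pool.Agent.Helper92.CL.M_GLs
import Pool.Agent.Helper13.CL.M_Face
import Pool.Agent.Helper88.CL.M_SW
import Pool.Agent.Helper17.CL.M_Dens
import Pool.Agent.Helper57.CL.M_Har
import Pool.Agent.Helper26.CL.M_C2lE
import Pool.Agent.Helper26.CL.M_CCa

/-! # Project CM, blocks N and C: all modules together -/

set_option autoImplicit false

open scoped BigOperators ENNReal Topology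
open Pool.LE Filter
open Pool.NL (StCoefU StFin StBn StBasic StClu StHh StEdge StTG2 StCpTau StHub StTri StG3 StEnv Env G3 G3Z)

namespace Pool.CN

theorem allCN :
    Pool.CL.StCC ∧ Pool.CL.StSin ∧ Pool.CN.StN1 ∧ Pool.CN.StN2 ∧ Pool.CN.StGLs := by
  have hDiag := LE.allFinite
  have hCoef : StCoef := LE.allCoef
  have hBox : StBox := LE.hBox
  have hW := LE.hWalkBox hBox
  have hT := LE.hTransl
  have hCLc := LE.hCoefLoc (LE.hCoefLoc0 hW) hT
  have hGE := LE.hGmEq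
  have hSupp : StSupp := LE.hSupp hW hBox
  have hGcoef : StGcoef := LE.hGcoef hCoef hCLc hGE hSupp hBox
  have hSyT := LE.hSymT
  have hTS := LE.hTauSum hCLc hBox hW
  have hTauDom : StTauDom := LE.hTauDom hT hBox
  have hTauBasic : StTauBasic := LE.hTauBasic hTS hSyT
  have hQw : StQw := LE.hQw
  have hBK : StBK := LE.hBK
  have hTRcm : StTRcm := LE.hTRcm hBK
  have hDRBK : StDRBK := LE.hDRBK hBK hTRcm
  have hATT : StATT := LE.hATT LE.hWIT
  have hCoefU : StCoefU := Pool.NL.hCoefU hCoef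
  have hFin : StFin := Pool.NL.hFin hCoef hCoefU
  have hBn : StBn := Pool.NL.hBn hBox
  have hBasic : StBasic := Pool.NL.hBasic
  have hClu : StClu := Pool.NL.hClu
  have hHh : StHh := Pool.NL.hHh hBasic hClu
  have hEdge : StEdge := Pool.NL.hEdge
  have hCpTau : StCpTau := Pool.NL.hCpTau hTauDom hTauBasic hBasic hBn
  have hTG2 : StTG2 := Pool.NL.hTG2 hATT hDRBK hBasic hHh
  have hHub : StHub := Pool.NL.hHub hCpTau hBn hTauBasic
  have hTri : StTri := Pool.NL.hTri hCpTau hTauBasic hQw hBn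
  have hGLs : StGLs := Pool.CN.hGLs hCoef hCoefU hW hBox
  have hN1 : Pool.CN.StN1 := Pool.CN.hN1 hGLs hFin hGcoef hSupp hBox hBn
  have hN2 : Pool.CN.StN2 := Pool.CN.hN2 hFin hBn hHh hBox
  have hC1 : StC1 := Pool.CN.hC1
  have hC1b : StC1b := Pool.CN.hC1b hBox
  have hC1w : StC1w := Pool.CN.hC1w hBox hBn
  have hC2e : StC2e := Pool.CN.hC2e hN1 hN2 hC1 hC1b hC1w
  have hC2s : StC2s := Pool.CN.hC2s hN2 hC2e hC1b hC1w hBn hHh hBox
  have hMp : StMp := Pool.CN.hMp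
  have hUn : StUn := Pool.CN.hUn
  have hRf : StRf := Pool.CN.hRf hMp hBox hBn
  have hNF1 : StNF1 := Pool.CN.hNF1 hMp hUn hHh hBox hBn
  have hNF2 : StNF2 := Pool.CN.hNF2 hMp hUn hBasic hBox hBn
  have hFace : StFace := Pool.CN.hFace hNF1 hNF2 hTG2 hTri hHub hTauDom hTauBasic hBasic hBn hBox hHh
  have hHar : StHar := Pool.CN.hHar hEdge hBasic hClu hHh hBn hBox
  have hHw : StHw := Pool.CN.hHw hFace hRf hHar hHub hBn hBox hHh
  have hRie : StRie := Pool.CN.hRie hBn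
  have hCCv : StCCv := Pool.CN.hCCv hRie
  have hCCa : StCCa := Pool.CN.hCCa hBn
  have hDens : StDens := Pool.CN.hDens Pool.CN.hSW hBn
  have hC2lE := Pool.CN.hC2lE LE.hFTb LE.hIso
  have hCP : ∀ (d : ℕ) (C₁ B c₀ CL : ℝ), Pool.CL.EnvC d C₁ B c₀ CL → Pool.CN.CP d :=
    fun d C₁ B c₀ CL h => hCp hC2s hHw hC1b hBn d C₁ B c₀ h.env h.g3z h.g3 (hC2lE d C₁ B c₀ CL h)
  exact ⟨Pool.CL.hCCof hCCa hCCv hDens hHub hBn hHh hCP, Pool.CL.hSinof hCP, hN1, hN2, hGLs⟩

end Pool.CN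

namespace Pool.CL

/-- closure properties of the class `CC` -/
theorem hCC : StCC := Pool.CN.allCN.1

/-- sines are eigenfunctions in the limit -/
theorem hSin : StSin := Pool.CN.allCN.2.1

end Pool.CL
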