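import Pool.Agent.Helper22.NL.StZ

/-! # Project CM (MP_65faa7), blocks N and C: definitions and statements
Third moment locality of the expansion in the box, and the Dirichlet operator. -/

set_option autoImplicit false

open scoped BigOperators ENNReal Topology
open Pool.LE Pool.NL Filter

namespace Pool.CN

/-! ## Definitions -/

/-- frequencies `κ_i = π k_i / (n+1)` -/
noncomputable def kap {d : ℕ} (n : ℕ) (k : Fin d → ℕ) (i : Fin d) : ℝ := Real.pi * k i / (n + 1)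

/-- product of sines, a function on the whole lattice which vanishes at `x_i = -1` and `x_i = n` -/
noncomputable def sk {d : ℕ} (n : ℕ) (k : Fin d → ℕ) (x : Zd d) : ℝ :=
  ∏ i, Real.sin (kap n k i * ((x i : ℝ) + 1))

/-- weight at the boundary -/
noncomputable def wb {d : ℕ} (n : ℕ) (x : Zd d) : ℝ :=
  ∑ i, (1 / ((x i : ℝ) + 1) ^ 2 + 1 / ((n : ℝ) - x i) ^ 2)

/-- rescaled point -/
noncomputable def rs {d : ℕ} (n : ℕ) (x : Zd d) (i : Fin d) : ℝ := ((x i : ℝ) + 1) / (n + 1)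

/-- bounded grid functions which are `L¹`-approximable by continuous functions -/
def CC (d : ℕ) (f : ℕ → Zd d → ℝ) : Prop :=
  (∃ M : ℝ, ∀ n : ℕ, ∀ x ∈ Bn d n, |f n x| ≤ M) ∧
  ∀ ε : ℝ, 0 < ε → ∃ g : (Fin d → ℝ) → ℝ, Continuous g ∧ ∃ n₀ : ℕ, ∀ n : ℕ, n₀ ≤ n →
    ∑ x ∈ Bn d n, |f n x - g (rs n x)| ≤ ε * (n : ℝ) ^ d

/-- the rescaled two-point function of the box as an operator -/
noncomputable def Tn (d : ℕ) (n : ℕ) (f : Zd d → ℝ) (v : Zd d) : ℝ :=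
  (1 / (n : ℝ) ^ 2) * ∑ y ∈ Bn d n, cp (ES (Bn d n)) (pH d) v y * f y

/-- image of an edge set under a bijection -/
noncomputable def mpE {V : Type} [DecidableEq V] (φ : V ≃ V) (E : Finset (Sym2 V)) :
    Finset (Sym2 V) := E.map φ.toEmbedding.sym2Map

/-- reflection of the coordinate `i` at `a / 2` -/
def rfl' {d : ℕ} (i : Fin d) (a : ℤ) (x : Zd d) : Zd d := Function.update x i (a - x i)

/-! ## Block N -/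

/-- support of the coefficients in a finite graph -/
def StGLs : Prop := ∀ (d : ℕ) (E : Finset (Sym2 (Zd d))) (p : ℝ) (m : ℕ) (v x : Zd d),
  (E : Set (Sym2 (Zd d))) ⊆ latE d → x - v ∉ bx d m → gL E p v x m = 0

/-- third moment locality -/
def StN1 : Prop := ∀ (d n R : ℕ) (p : ℝ), 1 ≤ d → 0 ≤ p → p ≤ 1 → G3Z d p → G3 (ES (Bn d n)) p →
  1 ≤ R → ∀ v : Zd d, (∀ y ∈ bx d (R - 1), v + y ∈ Bn d n) → ∀ i : Fin d,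
    Summable (fun x : Zd d => ((R : ℝ) + |(x i : ℝ) - v i|) *
      |gT (ES (Bn d n)) p v x - gS d p (x - v)|) ∧
    ∑' x : Zd d, ((R : ℝ) + |(x i : ℝ) - v i|) *
      |gT (ES (Bn d n)) p v x - gS d p (x - v)| ≤ 1 / (R : ℝ) ^ 2

/-- the inverse of `g`, symmetry of `g`, the inverse of the two-point function -/
def StN2 : Prop := ∀ (d n : ℕ) (p : ℝ), 0 ≤ p → p ≤ 1 → G3 (ES (Bn d n)) p →
  (∀ x ∈ Bn d n, ∀ y : Zd d, y ∉ Bn d n → gT (ES (Bn d n)) p x y = 0) ∧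
  (∀ x ∈ Bn d n, ∑ y ∈ Bn d n, |gT (ES (Bn d n)) p x y| ≤ 5 / 4) ∧
  (∀ x ∈ Bn d n, ∀ y ∈ Bn d n, gT (ES (Bn d n)) p x y = gT (ES (Bn d n)) p y x) ∧
  (∀ v ∈ Bn d n, ∀ x ∈ Bn d n, cp (ES (Bn d n)) p v x = gT (ES (Bn d n)) p v x +
    ∑ b ∈ Bn d n, ∑ u ∈ Bn d n, if u ∈ nb b then
      cp (ES (Bn d n)) p v b * p * gT (ES (Bn d n)) p u x else 0) ∧
  ∃ gi : Zd d → Zd d → ℝ, (∀ x y, x ∉ Bn d n ∨ y ∉ Bn d n → gi x y = 0) ∧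
    (∀ x y, gi x y = gi y x) ∧ (∀ x, ∑ y ∈ Bn d n, |gi x y| ≤ 4 / 3) ∧
    (∀ v ∈ Bn d n, ∀ x ∈ Bn d n, ∑ u ∈ Bn d n, gi v u * gT (ES (Bn d n)) p u x = ind (v = x)) ∧
    (∀ v ∈ Bn d n, ∀ x ∈ Bn d n, ∑ u ∈ Bn d n,
      (gi v u - ind (u ∈ nb v) * p) * cp (ES (Bn d n)) p u x = ind (v = x)) ∧
    (∀ v ∈ Bn d n, ∀ x ∈ Bn d n, ∑ u ∈ Bn d n,
      cp (ES (Bn d n)) p v u * (gi u x - ind (u ∈ nb x) * p) = ind (v = x))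

/-! ## Block C -/

/-- sines are eigenfunctions of symmetric convolutions -/
def StC1 : Prop := ∀ (d n : ℕ) (k : Fin d → ℕ) (f : Zd d → ℝ), Summable f → SymF f → ∀ b : Zd d,
  Summable (fun x : Zd d => f (x - b) * sk n k x) ∧
    ∑' x : Zd d, f (x - b) * sk n k x = FT f (kap n k) * sk n k b

/-- elementary facts on the sines -/
def StC1b : Prop := ∀ (d n : ℕ) (k : Fin d → ℕ),
  (∀ b : Zd d, ∑ u ∈ nb b, sk n k u = 2 * d * Dh (kap n k) * sk n k b) ∧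
  (∀ b : Zd d, |sk n k b| ≤ 1) ∧
  (∀ b ∈ Bn d n, ∀ u ∈ nb b, u ∉ Bn d n → sk n k u = 0) ∧
  (∀ (i : Fin d) (b x : Zd d),
    |sk n k x| ≤ kap n k i * (|(b i : ℝ) + 1| + |(x i : ℝ) - b i|) ∧
    |sk n k x| ≤ kap n k i * (|(n : ℝ) - b i| + |(x i : ℝ) - b i|))

/-- elementary facts on the boundary weight -/
def StC1w : Prop := ∀ (d n : ℕ), 1 ≤ d → ∀ b ∈ Bn d n,
  (0 ≤ wb n b) ∧ (∀ u ∈ nb b, u ∈ Bn d n → wb n u ≤ 4 * wb n b) ∧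
  ∃ (R : ℕ) (i : Fin d), 1 ≤ R ∧ (∀ y ∈ bx d (R - 1), b + y ∈ Bn d n) ∧
    (|(b i : ℝ) + 1| = R ∨ |(n : ℝ) - b i| = R) ∧ 1 / (R : ℝ) ^ 2 ≤ wb n b

/-- `g` is almost diagonal on the sines -/
def StC2e : Prop := ∀ (d n : ℕ) (p : ℝ), 1 ≤ d → 0 ≤ p → p ≤ 1 → G3Z d p → G3 (ES (Bn d n)) p →
  Summable (gS d p) → SymF (gS d p) → ∀ (k : Fin d → ℕ), ∀ b ∈ Bn d n,
    |∑ x ∈ Bn d n, gT (ES (Bn d n)) p b x * sk n k x - FT (gS d p) (kap n k) * sk n k b| ≤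
      (∑ i, kap n k i) * wb n b

/-- the two-point function on the sines, summed error -/
def StC2s : Prop := ∀ (d n : ℕ) (p : ℝ), 1 ≤ d → 0 ≤ p → p ≤ 1 → G3Z d p → G3 (ES (Bn d n)) p →
  Summable (gS d p) → SymF (gS d p) → ∀ (k : Fin d → ℕ),
    ∑ v ∈ Bn d n, |(1 - 2 * d * p * Dh (kap n k) * FT (gS d p) (kap n k)) *
        (∑ y ∈ Bn d n, cp (ES (Bn d n)) p v y * sk n k y) - FT (gS d p) (kap n k) * sk n k v| ≤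
      (∑ i, kap n k i) * (1 + 8 * d * p) *
        ∑ b ∈ Bn d n, hh (Bn d n) (ES (Bn d n)) p b * wb n b

/-- the step kernel at small frequencies -/
def StC2l : Prop := ∃ d₁ : ℕ, 1 ≤ d₁ ∧ ∀ d : ℕ, d₁ ≤ d → 0 < FT (gS d (pH d)) 0 ∧
  Summable (gS d (pH d)) ∧ SymF (gS d (pH d)) ∧ ∃ c : ℝ, 0 < c ∧
  ∀ k : Fin d → ℕ, (∀ i, 1 ≤ k i) →
    Tendsto (fun n : ℕ => (n : ℝ) ^ 2 * (1 - 2 * d * pH d * Dh (kap n k) *
      FT (gS d (pH d)) (kap n k))) atTop (𝓝 (c * (∑ i, (k i : ℝ) ^ 2) * FT (gS d (pH d)) 0)) ∧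
    Tendsto (fun n : ℕ => FT (gS d (pH d)) (kap n k)) atTop (𝓝 (FT (gS d (pH d)) 0))

/-- images of configurations -/
def StMp : Prop := ∀ (V : Type) [DecidableEq V] (φ : V ≃ V) (E : Finset (Sym2 V)) (p : ℝ),
  (∀ f : Finset (Sym2 V) → ℝ, ex (mpE φ E) p f = ex E p (fun ω => f (mpE φ ω))) ∧
  (∀ (ω : Finset (Sym2 V)) (x y : V), con (mpE φ ω) (φ x) (φ y) ↔ con ω x y) ∧
  (∀ x y : V, cp (mpE φ E) p (φ x) (φ y) = cp E p x y)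

/-- independence of disjoint edge sets -/
def StUn : Prop := ∀ (V : Type) [DecidableEq V] (E₁ E₂ : Finset (Sym2 V)) (p : ℝ),
  Disjoint E₁ E₂ → ∀ f : Finset (Sym2 V) → ℝ,
    ex (E₁ ∪ E₂) p f = ex E₁ p (fun ω₁ => ex E₂ p (fun ω₂ => f (ω₁ ∪ ω₂))) ∧
    ∀ g₁ g₂ : Finset (Sym2 V) → ℝ, ex (E₁ ∪ E₂) p (fun ω => g₁ (ω ∩ E₁) * g₂ (ω ∩ E₂)) =
      ex E₁ p g₁ * ex E₂ p g₂

/-- reflections of the box -/
def StRf : Prop := ∀ (d n : ℕ) (p : ℝ) (i : Fin d), 0 ≤ p → p ≤ 1 →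
  (∀ x : Zd d, x ∈ Bn d n ↔ rfl' i (n - 1) x ∈ Bn d n) ∧
  ∀ x ∈ Bn d n, hh (Bn d n) (ES (Bn d n)) p (rfl' i (n - 1) x) = hh (Bn d n) (ES (Bn d n)) p x

/-- neighbouring points -/
def StHar : Prop := ∀ (d n : ℕ) (p : ℝ), 0 ≤ p → p ≤ 1 → ∀ b ∈ Bn d n, ∀ u ∈ Bn d n, u ∈ nb b →
  p * hh (Bn d n) (ES (Bn d n)) p b ≤ hh (Bn d n) (ES (Bn d n)) p u

/-- the doubled box (reflected at the face `x_i = 0`) -/
noncomputable def B2 (d n : ℕ) (i : Fin d) : Finset (Zd d) := Bn d n ∪ (Bn d n).image (rfl' i (-1))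

open Classical in
/-- number of pairs joined through the face -/
noncomputable def NF (d n : ℕ) (i : Fin d) (ω : Finset (Sym2 (Zd d))) : ℝ :=
  ∑ x ∈ (Bn d n).filter (fun x => x i = 0), ind (s(x, rfl' i (-1) x) ∈ ω) *
    ((Xc (Bn d n) (ω ∩ ES (Bn d n)) x : ℝ) *
      Xc ((Bn d n).image (rfl' i (-1))) (ω ∩ ES ((Bn d n).image (rfl' i (-1)))) (rfl' i (-1) x))

/-- first moment of `NF` -/
def StNF1 : Prop := ∀ (d n : ℕ) (p : ℝ) (i : Fin d), 0 ≤ p → p ≤ 1 →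
  ex (ES (B2 d n i)) p (NF d n i) =
    p * ∑ x ∈ (Bn d n).filter (fun x => x i = 0), (hh (Bn d n) (ES (Bn d n)) p x) ^ 2

/-- upper bound for `NF` by Cauchy-Schwarz -/
def StNF2 : Prop := ∀ (d n : ℕ) (p : ℝ) (i : Fin d), 0 ≤ p → p ≤ 1 →
  (ex (ES (B2 d n i)) p (NF d n i)) ^ 2 ≤
    (∑ y ∈ Bn d n, ∑ z ∈ (Bn d n).image (rfl' i (-1)), cp (ES (B2 d n i)) p y z) *
    ∑ x ∈ (Bn d n).filter (fun x => x i = 0), ∑ x' ∈ (Bn d n).filter (fun x => x i = 0),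
      (ex (ES (Bn d n)) p (fun ω => (Xc (Bn d n) ω x : ℝ) * ind (con ω x x'))) ^ 2

/-- the face estimate -/
def StFace : Prop := ∀ (d : ℕ) (C₁ B c₀ : ℝ), Env d C₁ B c₀ → ∀ (n : ℕ) (i : Fin d), 1 ≤ n →
  (pH d * ∑ x ∈ (Bn d n).filter (fun x => x i = 0), (hh (Bn d n) (ES (Bn d n)) (pH d) x) ^ 2) ^ 2 ≤
    4 * C₁ ^ 3 * B * (n : ℝ) ^ (2 * d + 5)

/-- the weighted sum is small -/
def StHw : Prop := ∀ (d : ℕ) (C₁ B c₀ : ℝ), Env d C₁ B c₀ →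
  Tendsto (fun n : ℕ => (∑ b ∈ Bn d n, hh (Bn d n) (ES (Bn d n)) (pH d) b * wb n b) / (n : ℝ) ^ (d + 1))
    atTop (𝓝 0)

/-- C, final form: the two-point function of the box acts on sines like the inverse Laplacian -/
def StC : Prop := ∃ d₁ : ℕ, ∀ d : ℕ, d₁ ≤ d → ∃ c : ℝ, 0 < c ∧ ∀ k : Fin d → ℕ, (∀ i, 1 ≤ k i) →
  Tendsto (fun n : ℕ => (1 / (n : ℝ) ^ d) * ∑ v ∈ Bn d n,
    |Tn d n (sk n k) v - sk n k v / (c * ∑ i, (k i : ℝ) ^ 2)|) atTop (𝓝 0)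

/-! ## The class -/

/-- Stone-Weierstrass for products of sines -/
def StSW : Prop := ∀ (d : ℕ) (g : (Fin d → ℝ) → ℝ) (δ : ℝ), Continuous g → 0 < δ → δ < 1 / 2 →
  (∀ x : Fin d → ℝ, (∃ i, x i ≤ δ ∨ 1 - δ ≤ x i) → g x = 0) → ∀ ε : ℝ, 0 < ε →
    ∃ (K : Finset (Fin d → ℕ)) (a : (Fin d → ℕ) → ℝ), (∀ k ∈ K, ∀ i, 1 ≤ k i) ∧
      ∀ x : Fin d → ℝ, (∀ i, 0 ≤ x i ∧ x i ≤ 1) →
        |g x - ∑ k ∈ K, a k * ∏ i, Real.sin (Real.pi * k i * x i)| ≤ ε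

/-- sines are dense in the discrete `L¹` norm -/
def StDens : Prop := ∀ (d : ℕ) (g : (Fin d → ℝ) → ℝ), Continuous g → ∀ ε : ℝ, 0 < ε →
  ∃ (K : Finset (Fin d → ℕ)) (a : (Fin d → ℕ) → ℝ), (∀ k ∈ K, ∀ i, 1 ≤ k i) ∧ ∃ n₀ : ℕ, ∀ n : ℕ,
    n₀ ≤ n → ∑ x ∈ Bn d n, |g (rs n x) - ∑ k ∈ K, a k * sk n k x| ≤ ε * (n : ℝ) ^ d

/-- Riemann sums of continuous functions -/
def StRie : Prop := ∀ (d : ℕ) (g : (Fin d → ℝ) → ℝ), Continuous g → ∃ l : ℝ,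
  Tendsto (fun n : ℕ => (1 / (n : ℝ) ^ d) * ∑ x ∈ Bn d n, g (rs n x)) atTop (𝓝 l)

/-- averages converge -/
def StCCv : Prop := ∀ (d : ℕ) (f : ℕ → Zd d → ℝ), CC d f → ∃ l : ℝ,
  Tendsto (fun n : ℕ => (1 / (n : ℝ) ^ d) * ∑ x ∈ Bn d n, f n x) atTop (𝓝 l)

/-- the class is an algebra -/
def StCCa : Prop := ∀ d : ℕ,
  (∀ c : ℝ, CC d (fun _ _ => c)) ∧
  (∀ f g : ℕ → Zd d → ℝ, CC d f → CC d g → CC d (fun n x => f n x + g n x)) ∧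
  (∀ f g : ℕ → Zd d → ℝ, CC d f → CC d g → CC d (fun n x => f n x - g n x)) ∧
  (∀ (c : ℝ) (f : ℕ → Zd d → ℝ), CC d f → CC d (fun n x => c * f n x)) ∧
  (∀ f g : ℕ → Zd d → ℝ, CC d f → CC d g → CC d (fun n x => f n x * g n x)) ∧
  (∀ g : (Fin d → ℝ) → ℝ, Continuous g → CC d (fun n x => g (rs n x))) ∧
  (∀ f : ℕ → Zd d → ℝ, (∃ M : ℝ, ∀ n : ℕ, ∀ x ∈ Bn d n, |f n x| ≤ M) →
    (∀ ε : ℝ, 0 < ε → ∃ g : ℕ → Zd d → ℝ, CC d g ∧ ∃ n₀ : ℕ, ∀ n : ℕ, n₀ ≤ n →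
      ∑ x ∈ Bn d n, |f n x - g n x| ≤ ε * (n : ℝ) ^ d) → CC d f)

/-- the class is stable under the two-point function -/
def StCCT : Prop := ∃ d₁ : ℕ, ∀ d : ℕ, d₁ ≤ d → ∀ f : ℕ → Zd d → ℝ, CC d f →
  CC d (fun n v => Tn d n (f n) v)

end Pool.CN
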